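import Mathlib

/-!
# Barnes-Wall lattices: recursive description, symmetries, minimal vectors
-/

open scoped RealInnerProductSpace

namespace Pool.Agent.H76.Jam

/-- The ambient space of the lattice of rank `2 ^ (m + 1)`. -/
abbrev E (m : ℕ) := EuclideanSpace ℂ (Fin m → Fin 2)

/-- `φ = 1 + i` -/
noncomputable def φ : ℂ := 1 + Complex.I

/-- first half of the coordinates -/
noncomputable def fstP {m : ℕ} : E (m + 1) →ₗ[ℂ] E m where
  toFun v := WithLp.toLp 2 fun a => v (Fin.cons 0 a)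
  map_add' u v := by ext a; simp
  map_smul' c v := by ext a; simp

/-- second half of the coordinates -/
noncomputable def sndP {m : ℕ} : E (m + 1) →ₗ[ℂ] E m where
  toFun v := WithLp.toLp 2 fun a => v (Fin.cons 1 a)
  map_add' u v := by ext a; simp
  map_smul' c v := by ext a; simp

/-- put two halves together -/
noncomputable def pair {m : ℕ} (u w : E m) : E (m + 1) :=
  WithLp.toLp 2 fun a => if a 0 = 0 then u (Fin.tail a) else w (Fin.tail a)

@[simp] lemma fstP_apply {m : ℕ} (v : E (m + 1)) (a : Fin m → Fin 2) :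
    fstP v a = v (Fin.cons 0 a) := rfl
@[simp] lemma sndP_apply {m : ℕ} (v : E (m + 1)) (a : Fin m → Fin 2) :
    sndP v a = v (Fin.cons 1 a) := rfl
lemma pair_apply {m : ℕ} (u w : E m) (a : Fin (m + 1) → Fin 2) :
    pair u w a = if a 0 = 0 then u (Fin.tail a) else w (Fin.tail a) := rfl

@[simp] lemma fstP_pair {m : ℕ} (u w : E m) : fstP (pair u w) = u := by
  ext a; simp [pair_apply]
@[simp] lemma sndP_pair {m : ℕ} (u w : E m) : sndP (pair u w) = w := by
  ext a; simp [pair_apply]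
lemma ext_halves {m : ℕ} {u v : E (m + 1)} (h1 : fstP u = fstP v) (h2 : sndP u = sndP v) :
    u = v := by
  ext a
  rw [← Fin.cons_self_tail a]
  have : a 0 = 0 ∨ a 0 = 1 := by
    rcases Fin.exists_fin_two.1 ⟨a 0, rfl⟩ with h | h
    · exact Or.inl h
    · exact Or.inr h
  rcases this with h | h
  · rw [h]; exact congrArg (fun w : E m => w (Fin.tail a)) h1
  · rw [h]; exact congrArg (fun w : E m => w (Fin.tail a)) h2
@[simp] lemma pair_halves {m : ℕ} (v : E (m + 1)) : pair (fstP v) (sndP v) = v :=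
  ext_halves (by simp) (by simp)

lemma pair_add {m : ℕ} (u w u' w' : E m) : pair u w + pair u' w' = pair (u + u') (w + w') :=
  ext_halves (by simp) (by simp)
lemma pair_smul {m : ℕ} (c : ℂ) (u w : E m) : c • pair u w = pair (c • u) (c • w) :=
  ext_halves (by simp) (by simp)

lemma sum_halves {m : ℕ} {M : Type*} [AddCommMonoid M] (f : (Fin (m + 1) → Fin 2) → M) :
    ∑ a, f a = ∑ a, f (Fin.cons 0 a) + ∑ a, f (Fin.cons 1 a) := by
  rw [← (Fin.consEquiv (fun _ : Fin (m + 1) => Fin 2)).sum_comp f, Fintype.sum_prod_type,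
    Fin.sum_univ_two]
  rfl

lemma norm_sq_halves {m : ℕ} (v : E (m + 1)) : ‖v‖ ^ 2 = ‖fstP v‖ ^ 2 + ‖sndP v‖ ^ 2 := by
  rw [EuclideanSpace.norm_sq_eq, EuclideanSpace.norm_sq_eq, EuclideanSpace.norm_sq_eq, sum_halves]
  rfl

/-- The recursive description of the lattice. -/
def L : (m : ℕ) → E m → Prop
  | 0, v => ∃ c : GaussianInt, ∀ a, v a = (c : ℂ)
  | m + 1, v => L m (fstP v) ∧ ∃ z, L m z ∧ sndP v = fstP v + φ • z

lemma L_zero_iff (v : E 0) : L 0 v ↔ ∃ c : GaussianInt, ∀ a, v a = (c : ℂ) := Iff.rfl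
lemma L_succ_iff {m : ℕ} (v : E (m + 1)) :
    L (m + 1) v ↔ L m (fstP v) ∧ ∃ z, L m z ∧ sndP v = fstP v + φ • z := Iff.rfl

lemma L_add {m : ℕ} {u v : E m} (hu : L m u) (hv : L m v) : L m (u + v) := by
  induction m with
  | zero =>
    obtain ⟨c, hc⟩ := hu
    obtain ⟨d, hd⟩ := hv
    exact ⟨c + d, fun a => by
      rw [PiLp.add_apply, hc, hd, map_add]⟩
  | succ m ih =>
    obtain ⟨h1, z, hz, h2⟩ := hu
    obtain ⟨h3, z', hz', h4⟩ := hv
    refine ⟨by rw [map_add]; exact ih h1 h3, z + z', ih hz hz', ?_⟩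
    rw [map_add, map_add, h2, h4, smul_add]
    abel

lemma L_smul {m : ℕ} (c : GaussianInt) {v : E m} (hv : L m v) : L m ((c : ℂ) • v) := by
  induction m with
  | zero =>
    obtain ⟨d, hd⟩ := hv
    exact ⟨c * d, fun a => by rw [PiLp.smul_apply, hd, map_mul, smul_eq_mul]⟩
  | succ m ih =>
    obtain ⟨h1, z, hz, h2⟩ := hv
    refine ⟨by rw [map_smul]; exact ih h1, (c : ℂ) • z, ih hz, ?_⟩
    rw [map_smul, map_smul, h2, smul_add, smul_comm φ]

lemma L_zero {m : ℕ} : L m (0 : E m) := by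
  induction m with
  | zero => exact ⟨0, fun a => by simp⟩
  | succ m ih => exact ⟨by simpa using ih, 0, ih, by simp⟩

lemma L_neg {m : ℕ} {v : E m} (hv : L m v) : L m (-v) := by
  have := L_smul (-1) hv
  simpa using this

lemma L_sub {m : ℕ} {u v : E m} (hu : L m u) (hv : L m v) : L m (u - v) := by
  rw [sub_eq_add_neg]; exact L_add hu (L_neg hv)

lemma L_I {m : ℕ} {v : E m} (hv : L m v) : L m (Complex.I • v) := by
  have := L_smul (⟨0, 1⟩ : GaussianInt) hv
  simpa [GaussianInt.toComplex_def] using this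

lemma L_φ {m : ℕ} {v : E m} (hv : L m v) : L m (φ • v) := by
  have : φ • v = v + Complex.I • v := by rw [φ, add_smul, one_smul]
  rw [this]
  exact L_add hv (L_I hv)

lemma L_sum {m : ℕ} {ι : Type*} (s : Finset ι) (f : ι → E m) (h : ∀ i ∈ s, L m (f i)) :
    L m (∑ i ∈ s, f i) := by
  classical
  induction s using Finset.induction_on with
  | empty => simpa using L_zero
  | insert i s hi ih =>
    rw [Finset.sum_insert hi]
    exact L_add (h i (Finset.mem_insert_self _ _)) (ih fun j hj => h j (Finset.mem_insert_of_mem hj))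

lemma normSq_φ : ‖φ‖ ^ 2 = 2 := by
  rw [← Complex.normSq_eq_norm_sq, Complex.normSq_apply]
  simp [φ]; norm_num

lemma φ_ne_zero : φ ≠ 0 := by
  intro h
  have := normSq_φ
  rw [h] at this
  norm_num at this

lemma norm_φ_smul {m : ℕ} (v : E m) : ‖φ • v‖ ^ 2 = 2 * ‖v‖ ^ 2 := by
  rw [norm_smul, mul_pow, normSq_φ]

/-- The minimal squared norm is at least `2 ^ m`. -/
lemma min_norm {m : ℕ} {v : E m} (hv : L m v) (h0 : v ≠ 0) : (2 : ℝ) ^ m ≤ ‖v‖ ^ 2 := by
  induction m with
  | zero =>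
    obtain ⟨c, hc⟩ := hv
    have hc0 : c ≠ 0 := by
      rintro rfl
      apply h0
      ext a
      rw [hc a]; simp
    rw [EuclideanSpace.norm_sq_eq]
    simp only [Finset.univ_unique, Finset.sum_singleton, pow_zero]
    rw [hc, ← Complex.normSq_eq_norm_sq, ← GaussianInt.intCast_real_norm]
    have h1 : 0 < c.norm := GaussianInt.norm_pos.2 hc0
    exact_mod_cast h1
  | succ m ih =>
    obtain ⟨h1, z, hz, h2⟩ := hv
    rw [norm_sq_halves]
    by_cases hf : fstP v = 0
    · rw [hf, zero_add] at h2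
      have hz0 : z ≠ 0 := by
        rintro rfl
        apply h0
        apply ext_halves
        · rw [hf, map_zero]
        · rw [h2, map_zero, smul_zero]
      rw [hf, h2, norm_φ_smul, norm_zero]
      have := ih hz hz0
      rw [pow_succ]; linarith
    · by_cases hs : sndP v = 0
      · have h3 : fstP v = φ • (-z) := by
          rw [hs] at h2
          rw [smul_neg, eq_neg_iff_add_eq_zero]; exact h2.symm
        have hz0 : -z ≠ 0 := by
          intro h; rw [h, smul_zero] at h3; exact hf h3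
        rw [hs, h3, norm_φ_smul, norm_zero]
        have := ih (L_neg hz) hz0
        rw [pow_succ]; linarith
      · have h3 := ih h1 hf
        have h4 : L m (sndP v) := by rw [h2]; exact L_add h1 (L_φ hz)
        have h5 := ih h4 hs
        rw [pow_succ]; linarith

/-- The minimal vectors. -/
def S (m : ℕ) (v : E m) : Prop := L m v ∧ ‖v‖ ^ 2 = (2 : ℝ) ^ m

lemma S.ne_zero {m : ℕ} {v : E m} (h : S m v) : v ≠ 0 := by
  rintro rfl
  have := h.2
  rw [norm_zero] at this
  have h2 : (0 : ℝ) < 2 ^ m := by positivity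
  rw [← this] at h2
  norm_num at h2

lemma L_snd {m : ℕ} {v : E (m + 1)} (hv : L (m + 1) v) : L m (sndP v) := by
  obtain ⟨h1, z, hz, h2⟩ := hv
  rw [h2]; exact L_add h1 (L_φ hz)

/-- The three types of minimal vectors. -/
lemma S_succ {m : ℕ} {v : E (m + 1)} (h : S (m + 1) v) :
    (∃ z, S m z ∧ v = pair (φ • z) 0) ∨ (∃ z, S m z ∧ v = pair 0 (φ • z)) ∨
    (S m (fstP v) ∧ S m (sndP v) ∧ ∃ z, L m z ∧ sndP v = fstP v + φ • z) := by
  obtain ⟨hv, hn⟩ := h
  obtain ⟨h1, z, hz, h2⟩ := id hv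
  rw [norm_sq_halves] at hn
  by_cases hf : fstP v = 0
  · rw [hf, zero_add] at h2
    rw [hf, h2, norm_φ_smul, norm_zero, pow_succ (2 : ℝ) m] at hn
    refine Or.inr (Or.inl ⟨z, ⟨hz, by linarith⟩, ?_⟩)
    rw [← pair_halves v, hf, h2]
  · by_cases hs : sndP v = 0
    · have h3 : fstP v = φ • (-z) := by
        rw [hs] at h2
        rw [smul_neg, eq_neg_iff_add_eq_zero]; exact h2.symm
      rw [hs, h3, norm_φ_smul, norm_zero, pow_succ (2 : ℝ) m] at hn
      refine Or.inl ⟨-z, ⟨L_neg hz, by linarith⟩, ?_⟩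
      rw [← pair_halves v, hs, h3]
    · have h3 := min_norm h1 hf
      have h5 := min_norm (L_snd hv) hs
      rw [pow_succ (2 : ℝ) m] at hn
      exact Or.inr (Or.inr ⟨⟨h1, by linarith⟩, ⟨L_snd hv, by linarith⟩, z, hz, h2⟩)

/-- coordinate vectors -/
noncomputable def e {m : ℕ} (a : Fin m → Fin 2) : E m := EuclideanSpace.single a 1

lemma e_apply {m : ℕ} (a b : Fin m → Fin 2) : (e a) b = if b = a then 1 else 0 := by
  simp [e]

lemma norm_e {m : ℕ} (a : Fin m → Fin 2) : ‖e a‖ = 1 := by simp [e]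

lemma e_cons_zero {m : ℕ} (a : Fin m → Fin 2) : (e (Fin.cons 0 a) : E (m + 1)) = pair (e a) 0 := by
  apply ext_halves
  · ext b; simp [e_apply]
  · ext b; simp [e_apply]

lemma e_cons_one {m : ℕ} (a : Fin m → Fin 2) : (e (Fin.cons 1 a) : E (m + 1)) = pair 0 (e a) := by
  apply ext_halves
  · ext b; simp [e_apply]
  · ext b; simp [e_apply]

end Pool.Agent.H76.Jam
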