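import Mathlib

/-!
# Linear rigidity of the root system `D_n`, `n ≥ 4`
-/

open scoped RealInnerProductSpace

namespace Pool.Agent.H76.Jam

/-- The sign-character elimination. -/
lemma dn_numbers {J : Type*} (hJ : ∀ i j k : J, ∃ l, l ≠ i ∧ l ≠ j ∧ l ≠ k)
    (D : J → J → ℝ → ℝ → J → ℝ)
    (hsymm : ∀ i j s t k, D i j s t k = D j i t s k)
    (hself : ∀ i j, i ≠ j → ∀ s t : ℝ, (s = 1 ∨ s = -1) → (t = 1 ∨ t = -1) →
      s * D i j s t i + t * D i j s t j = 0)
    (hcon : ∀ i j k, i ≠ j → i ≠ k → j ≠ k → ∀ a b c : ℝ, (a = 1 ∨ a = -1) → (b = 1 ∨ b = -1) →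
      (c = 1 ∨ c = -1) →
      a * D i k a c i + b * D i k a c j + a * D i j a b i + c * D i j a b k = 0) :
    ∃ α : J → J → ℝ, (∀ i j, α i j = - α j i) ∧
      ∀ i j, i ≠ j → ∀ s t : ℝ, (s = 1 ∨ s = -1) → (t = 1 ∨ t = -1) → ∀ k,
        D i j s t k = s * α i k + t * α j k := by
  have o : (1 : ℝ) = 1 ∨ (1 : ℝ) = -1 := Or.inl rfl
  have m : (-1 : ℝ) = 1 ∨ (-1 : ℝ) = -1 := Or.inr rfl
  -- the eight instances of `hcon`
  have hc : ∀ i j k, i ≠ j → i ≠ k → j ≠ k →
      (1 * D i k 1 1 i + 1 * D i k 1 1 j + 1 * D i j 1 1 i + 1 * D i j 1 1 k = 0) ∧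
      (1 * D i k 1 (-1) i + 1 * D i k 1 (-1) j + 1 * D i j 1 1 i + (-1) * D i j 1 1 k = 0) ∧
      (1 * D i k 1 1 i + (-1) * D i k 1 1 j + 1 * D i j 1 (-1) i + 1 * D i j 1 (-1) k = 0) ∧
      (1 * D i k 1 (-1) i + (-1) * D i k 1 (-1) j + 1 * D i j 1 (-1) i +
        (-1) * D i j 1 (-1) k = 0) ∧
      ((-1) * D i k (-1) 1 i + 1 * D i k (-1) 1 j + (-1) * D i j (-1) 1 i +
        1 * D i j (-1) 1 k = 0) ∧
      ((-1) * D i k (-1) (-1) i + 1 * D i k (-1) (-1) j + (-1) * D i j (-1) 1 i +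
        (-1) * D i j (-1) 1 k = 0) ∧
      ((-1) * D i k (-1) 1 i + (-1) * D i k (-1) 1 j + (-1) * D i j (-1) (-1) i +
        1 * D i j (-1) (-1) k = 0) ∧
      ((-1) * D i k (-1) (-1) i + (-1) * D i k (-1) (-1) j + (-1) * D i j (-1) (-1) i +
        (-1) * D i j (-1) (-1) k = 0) := by
    intro i j k hij hik hjk
    exact ⟨hcon i j k hij hik hjk 1 1 1 o o o, hcon i j k hij hik hjk 1 1 (-1) o o m,
      hcon i j k hij hik hjk 1 (-1) 1 o m o, hcon i j k hij hik hjk 1 (-1) (-1) o m m,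
      hcon i j k hij hik hjk (-1) 1 1 m o o, hcon i j k hij hik hjk (-1) 1 (-1) m o m,
      hcon i j k hij hik hjk (-1) (-1) 1 m m o, hcon i j k hij hik hjk (-1) (-1) (-1) m m m⟩
  have hs : ∀ i j, i ≠ j → (1 * D i j 1 1 i + 1 * D i j 1 1 j = 0) ∧
      (1 * D i j 1 (-1) i + (-1) * D i j 1 (-1) j = 0) ∧
      ((-1) * D i j (-1) 1 i + 1 * D i j (-1) 1 j = 0) ∧
      ((-1) * D i j (-1) (-1) i + (-1) * D i j (-1) (-1) j = 0) := by
    intro i j hij
    exact ⟨hself i j hij 1 1 o o, hself i j hij 1 (-1) o m, hself i j hij (-1) 1 m o,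
      hself i j hij (-1) (-1) m m⟩
  -- characters of `P i j a b = a * D i j a b i`
  let p0 : J → J → ℝ := fun i j => D i j 1 1 i + D i j 1 (-1) i - D i j (-1) 1 i -
    D i j (-1) (-1) i
  let p1 : J → J → ℝ := fun i j => D i j 1 1 i + D i j 1 (-1) i + D i j (-1) 1 i +
    D i j (-1) (-1) i
  let p2 : J → J → ℝ := fun i j => D i j 1 1 i - D i j 1 (-1) i - D i j (-1) 1 i +
    D i j (-1) (-1) i
  let p3 : J → J → ℝ := fun i j => D i j 1 1 i - D i j 1 (-1) i + D i j (-1) 1 i -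
    D i j (-1) (-1) i
  have hp0' : ∀ i j k, i ≠ j → i ≠ k → j ≠ k → p0 i j + p0 i k = 0 := by
    intro i j k hij hik hjk
    obtain ⟨h1, h2, h3, h4, h5, h6, h7, h8⟩ := hc i j k hij hik hjk
    simp only [p0]
    linarith
  have hp1' : ∀ i j k, i ≠ j → i ≠ k → j ≠ k → p1 i j + p1 i k = 0 := by
    intro i j k hij hik hjk
    obtain ⟨h1, h2, h3, h4, h5, h6, h7, h8⟩ := hc i j k hij hik hjk
    simp only [p1]
    linarith
  have hp0 : ∀ i j, i ≠ j → p0 i j = 0 := by
    intro i j hij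
    obtain ⟨k, hki, hkj, -⟩ := hJ i j j
    obtain ⟨l, hli, hlj, hlk⟩ := hJ i j k
    have h1 := hp0' i j k hij hki.symm hkj.symm
    have h2 := hp0' i j l hij hli.symm hlj.symm
    have h3 := hp0' i k l hki.symm hli.symm hlk.symm
    linarith
  have hp1 : ∀ i j, i ≠ j → p1 i j = 0 := by
    intro i j hij
    obtain ⟨k, hki, hkj, -⟩ := hJ i j j
    obtain ⟨l, hli, hlj, hlk⟩ := hJ i j k
    have h1 := hp1' i j k hij hki.symm hkj.symm
    have h2 := hp1' i j l hij hli.symm hlj.symm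
    have h3 := hp1' i k l hki.symm hli.symm hlk.symm
    linarith
  have hp2 : ∀ i j, i ≠ j → p2 i j = 0 := by
    intro i j hij
    obtain ⟨h1, h2, h3, h4⟩ := hs i j hij
    have h5 := hp1 j i hij.symm
    simp only [p1, hsymm j i] at h5
    simp only [p2]
    linarith
  have hp3 : ∀ i j, i ≠ j → p3 i j = - p3 j i := by
    intro i j hij
    obtain ⟨h1, h2, h3, h4⟩ := hs i j hij
    simp only [p3, hsymm j i]
    linarith
  have hDi : ∀ i j, i ≠ j → D i j 1 1 i = p3 i j / 4 ∧ D i j 1 (-1) i = - p3 i j / 4 ∧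
      D i j (-1) 1 i = p3 i j / 4 ∧ D i j (-1) (-1) i = - p3 i j / 4 := by
    intro i j hij
    have h0 := hp0 i j hij
    have h1 := hp1 i j hij
    have h2 := hp2 i j hij
    simp only [p0] at h0
    simp only [p1] at h1
    simp only [p2] at h2
    simp only [p3]
    refine ⟨?_, ?_, ?_, ?_⟩ <;> linarith
  -- characters of `Q i j a b k = D i j a b k`
  let q3 : J → J → J → ℝ := fun i j k => D i j 1 1 k - D i j 1 (-1) k - D i j (-1) 1 k +
    D i j (-1) (-1) k
  have hq3' : ∀ i j k, i ≠ j → i ≠ k → j ≠ k → q3 i k j + q3 i j k = 0 := by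
    intro i j k hij hik hjk
    obtain ⟨h1, h2, h3, h4, h5, h6, h7, h8⟩ := hc i j k hij hik hjk
    simp only [q3]
    linarith
  have hq3s : ∀ i j k, q3 i j k = q3 j i k := by
    intro i j k
    simp only [q3, hsymm j i]
    ring
  have hq3 : ∀ i j k, i ≠ j → i ≠ k → j ≠ k → q3 i j k = 0 := by
    intro i j k hij hik hjk
    have h1 := hq3' i j k hij hik hjk
    have h2 := hq3' j i k hij.symm hjk hik
    have h3 := hq3' k i j hik.symm hjk.symm hij
    rw [hq3s k i j, hq3s k j i] at h3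
    rw [hq3s j i k] at h2
    linarith
  have hq0 : ∀ i j k, i ≠ j → i ≠ k → j ≠ k → D i j 1 1 k + D i j 1 (-1) k + D i j (-1) 1 k +
      D i j (-1) (-1) k = 0 := by
    intro i j k hij hik hjk
    obtain ⟨h1, h2, h3, h4, h5, h6, h7, h8⟩ := hc i j k hij hik hjk
    have h9 := hp2 i k hik
    simp only [p2] at h9
    linarith
  have hq1 : ∀ i j k, i ≠ j → i ≠ k → j ≠ k → D i j 1 1 k + D i j 1 (-1) k - D i j (-1) 1 k -
      D i j (-1) (-1) k = - p3 i k := by
    intro i j k hij hik hjk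
    obtain ⟨h1, h2, h3, h4, h5, h6, h7, h8⟩ := hc i j k hij hik hjk
    simp only [p3]
    linarith
  have hq2 : ∀ i j k, i ≠ j → i ≠ k → j ≠ k → D i j 1 1 k - D i j 1 (-1) k + D i j (-1) 1 k -
      D i j (-1) (-1) k = - p3 j k := by
    intro i j k hij hik hjk
    have := hq1 j i k hij.symm hjk hik
    simp only [hsymm j i] at this
    linarith
  classical
  refine ⟨fun i j => if i = j then 0 else - p3 i j / 4, ?_, ?_⟩
  · intro i j
    by_cases h : i = j
    · simp [h]
    · have h' : j ≠ i := Ne.symm h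
      simp only [h, h', if_false]
      rw [hp3 i j h]
      ring
  · intro i j hij s t hst htt k
    by_cases hki : k = i
    · subst hki
      obtain ⟨h1, h2, h3, h4⟩ := hDi k j hij
      have h5 := hp3 k j hij
      simp only [if_true, hij.symm, if_false]
      rcases hst with rfl | rfl <;> rcases htt with rfl | rfl <;> linarith
    · by_cases hkj : k = j
      · subst hkj
        obtain ⟨h1, h2, h3, h4⟩ := hDi i k hij
        obtain ⟨g1, g2, g3, g4⟩ := hs i k hij
        simp only [if_true, hij, if_false]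
        rcases hst with rfl | rfl <;> rcases htt with rfl | rfl <;> linarith
      · have e1 := hq0 i j k hij (Ne.symm hki) (Ne.symm hkj)
        have e2 := hq1 i j k hij (Ne.symm hki) (Ne.symm hkj)
        have e3 := hq2 i j k hij (Ne.symm hki) (Ne.symm hkj)
        have e4 := hq3 i j k hij (Ne.symm hki) (Ne.symm hkj)
        simp only [q3] at e4
        simp only [Ne.symm hki, Ne.symm hkj, if_false]
        rcases hst with rfl | rfl <;> rcases htt with rfl | rfl <;> linarith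

/-- The `D_n` lemma: a first order motion of the vectors `± b p ± b q` that keeps all norms and all
contacts is a skew linear map on them. -/
theorem dn_rigid {V : Type*} [NormedAddCommGroup V] [InnerProductSpace ℝ V]
    [FiniteDimensional ℝ V] {J : Type*} [Fintype J] [DecidableEq J]
    (hJ : ∀ i j k : J, ∃ l, l ≠ i ∧ l ≠ j ∧ l ≠ k) (b : Module.Basis J ℝ V) {κ : ℝ} (hκ : κ ≠ 0)
    (hb : ∀ p q, ⟪b p, b q⟫ = if p = q then κ else 0) (δ : V → V)
    (hself : ∀ i j, i ≠ j → ∀ s t : ℝ, (s = 1 ∨ s = -1) → (t = 1 ∨ t = -1) →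
      ⟪s • b i + t • b j, δ (s • b i + t • b j)⟫ = 0)
    (hcon : ∀ i j k, i ≠ j → i ≠ k → j ≠ k → ∀ x y z : ℝ, (x = 1 ∨ x = -1) → (y = 1 ∨ y = -1) →
      (z = 1 ∨ z = -1) →
      ⟪x • b i + y • b j, δ (x • b i + z • b k)⟫ + ⟪x • b i + z • b k, δ (x • b i + y • b j)⟫ = 0) :
    ∃ A : V →L[ℝ] V, (∀ v, ⟪A v, v⟫ = 0) ∧
      ∀ i j, i ≠ j → ∀ s t : ℝ, (s = 1 ∨ s = -1) → (t = 1 ∨ t = -1) →
        δ (s • b i + t • b j) = A (s • b i + t • b j) := by
  obtain ⟨α, hα, hD⟩ := dn_numbers hJ (fun i j s t k => ⟪b k, δ (s • b i + t • b j)⟫)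
    (fun i j s t k => by simp only [add_comm (s • b i)])
    (fun i j hij s t hs ht => by
      have := hself i j hij s t hs ht
      rw [inner_add_left, inner_smul_left, inner_smul_left] at this
      simpa using this)
    (fun i j k hij hik hjk x y z hx hy hz => by
      have := hcon i j k hij hik hjk x y z hx hy hz
      rw [inner_add_left, inner_add_left, inner_smul_left, inner_smul_left, inner_smul_left,
        inner_smul_left] at this
      simp only [conj_trivial] at this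
      linarith)
  let A₀ : V →ₗ[ℝ] V := b.constr ℝ (fun p => κ⁻¹ • ∑ k, α p k • b k)
  have hA₀ : ∀ p, A₀ (b p) = κ⁻¹ • ∑ k, α p k • b k := fun p => b.constr_basis ℝ _ p
  have hin : ∀ p k, ⟪b k, A₀ (b p)⟫ = α p k := by
    intro p k
    rw [hA₀, inner_smul_right, inner_sum]
    simp_rw [inner_smul_right, hb, mul_ite, mul_zero]
    rw [Finset.sum_ite_eq Finset.univ k]
    simp only [Finset.mem_univ, if_true]
    field_simp
  have hskew : ∀ v, ⟪A₀ v, v⟫ = 0 := by
    intro v
    have h1 : ∀ v w : V, ⟪w, A₀ v⟫ = ∑ p, ∑ k, b.repr v p * b.repr w k * α p k := by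
      intro v w
      conv_lhs => rw [← b.sum_repr v, ← b.sum_repr w]
      rw [map_sum, inner_sum]
      refine Finset.sum_congr rfl fun p _ => ?_
      rw [sum_inner]
      refine Finset.sum_congr rfl fun k _ => ?_
      rw [map_smul, inner_smul_left, inner_smul_right, hin]
      simp only [conj_trivial]
      ring
    rw [real_inner_comm, h1]
    have h2 : ∑ p, ∑ k, b.repr v p * b.repr v k * α p k =
        -∑ p, ∑ k, b.repr v p * b.repr v k * α p k := by
      conv_lhs => rw [Finset.sum_comm]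
      rw [← Finset.sum_neg_distrib]
      refine Finset.sum_congr rfl fun p _ => ?_
      rw [← Finset.sum_neg_distrib]
      refine Finset.sum_congr rfl fun k _ => ?_
      rw [hα k p]
      ring
    linarith
  refine ⟨LinearMap.toContinuousLinearMap A₀, hskew, fun i j hij s t hs ht => ?_⟩
  apply InnerProductSpace.ext_inner_left_basis b (𝕜 := ℝ)
  intro k
  have h1 := hD i j hij s t hs ht k
  rw [h1]
  change _ = ⟪b k, A₀ (s • b i + t • b j)⟫
  rw [map_add, map_smul, map_smul, inner_add_right, inner_smul_right, inner_smul_right, hin, hin]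

end Pool.Agent.H76.Jam
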