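import Mathlib

/-!
# From infinitesimal rigidity to jammedness
-/

open Set Filter Topology
open scoped RealInnerProductSpace

namespace Pool.Agent.H76.Jam

set_option linter.unusedSectionVars false

variable {V : Type*} [NormedAddCommGroup V] [InnerProductSpace ℝ V] [FiniteDimensional ℝ V]
variable {ι : Type*} [Fintype ι]

/-- isometric linear maps -/
def Iso (V : Type*) [NormedAddCommGroup V] [InnerProductSpace ℝ V] : Set (V →L[ℝ] V) :=
  {g | ∀ v, ‖g v‖ = ‖v‖}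

lemma isCompact_iso : IsCompact (Iso V) := by
  have : ProperSpace (V →L[ℝ] V) := FiniteDimensional.proper ℝ _
  apply Metric.isCompact_of_isClosed_isBounded
  · have : Iso V = ⋂ v : V, {g : V →L[ℝ] V | ‖g v‖ = ‖v‖} := by
      ext g; simp [Iso]
    rw [this]
    refine isClosed_iInter fun v => isClosed_eq ?_ continuous_const
    fun_prop
  · rw [isBounded_iff_forall_norm_le]
    refine ⟨1, fun g hg => ?_⟩
    apply ContinuousLinearMap.opNorm_le_bound _ zero_le_one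
    intro v
    rw [hg v, one_mul]

lemma Iso.inner_map {g : V →L[ℝ] V} (hg : g ∈ Iso V) (u v : V) : ⟪g u, g v⟫ = ⟪u, v⟫ := by
  let G : V →ₗᵢ[ℝ] V := ⟨g.toLinearMap, hg⟩
  exact G.inner_map_map u v

/-- The linear isometry equivalence defined by an isometric linear map. -/
noncomputable def Iso.equiv {g : V →L[ℝ] V} (hg : g ∈ Iso V) : V ≃ₗᵢ[ℝ] V :=
  LinearIsometry.toLinearIsometryEquiv ⟨g.toLinearMap, hg⟩ rfl

lemma Iso.equiv_apply {g : V →L[ℝ] V} (hg : g ∈ Iso V) (v : V) : Iso.equiv hg v = g v := rfl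

lemma Iso.mul_mem {g h : V →L[ℝ] V} (hg : g ∈ Iso V) (hh : h ∈ Iso V) : g * h ∈ Iso V := by
  intro v
  rw [mul_apply_eq_comp, hg, hh]

lemma exp_mem_iso {A : V →L[ℝ] V} (hA : ∀ v, ⟪A v, v⟫ = 0) (t : ℝ) :
    NormedSpace.exp (t • A) ∈ Iso V := by
  have hskew : A ∈ skewAdjoint (V →L[ℝ] V) := by
    rw [skewAdjoint.mem_iff]
    have hpol : ∀ u v : V, ⟪A u, v⟫ = -⟪A v, u⟫ := by
      intro u v
      have h1 := hA (u + v)
      rw [map_add, inner_add_left, inner_add_right, inner_add_right, hA u, hA v] at h1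
      linarith
    ext v
    apply ext_inner_right ℝ
    intro w
    rw [ContinuousLinearMap.star_eq_adjoint, ContinuousLinearMap.adjoint_inner_left,
      neg_apply, inner_neg_left, hpol v w, neg_neg, real_inner_comm]
  have hskew' : t • A ∈ skewAdjoint (V →L[ℝ] V) := by
    rw [skewAdjoint.mem_iff] at hskew ⊢
    rw [star_smul, hskew, smul_neg, star_trivial]
  let +nondep : NormedAlgebra ℚ (V →L[ℝ] V) := .restrictScalars ℚ ℝ _
  have := NormedSpace.exp_mem_unitary_of_mem_skewAdjoint hskew'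
  intro v
  exact ContinuousLinearMap.norm_map_of_mem_unitary this v

/-- Best approximation of a configuration by an isometric copy of `x`, with first order condition. -/
lemma exists_gauge (x y : ι → V) : ∃ g ∈ Iso V,
    (∀ h ∈ Iso V, ∑ i, ⟪h (x i), y i⟫ ≤ ∑ i, ⟪g (x i), y i⟫) ∧
    (∀ A : V →L[ℝ] V, (∀ v, ⟪A v, v⟫ = 0) → ∑ i, ⟪A (g (x i)), y i⟫ = 0) := by
  have hne : (Iso V).Nonempty := ⟨1, fun v => rfl⟩
  have hcont : ContinuousOn (fun g : V →L[ℝ] V => ∑ i, ⟪g (x i), y i⟫) (Iso V) := by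
    apply Continuous.continuousOn
    fun_prop
  obtain ⟨g, hg, hmax⟩ := isCompact_iso.exists_isMaxOn hne hcont
  refine ⟨g, hg, fun h hh => hmax hh, fun A hA => ?_⟩
  let F : ℝ → ℝ := fun t => ∑ i, ⟪(NormedSpace.exp (t • A)) (g (x i)), y i⟫
  have h0 : F 0 = ∑ i, ⟪g (x i), y i⟫ := by simp [F]
  have hle : ∀ t, F t ≤ F 0 := by
    intro t
    rw [h0]
    exact hmax (Iso.mul_mem (exp_mem_iso hA t) hg)
  have hder : HasDerivAt F (∑ i, ⟪A (g (x i)), y i⟫) 0 := by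
    apply HasDerivAt.fun_sum
    intro i _
    have h1 : HasDerivAt (fun t : ℝ => NormedSpace.exp (t • A)) (NormedSpace.exp ((0:ℝ) • A) * A) 0 :=
      hasDerivAt_exp_smul_const A (0 : ℝ)
    let +nondep : NormedAlgebra ℚ (V →L[ℝ] V) := .restrictScalars ℚ ℝ _
    rw [zero_smul, NormedSpace.exp_zero, one_mul] at h1
    have h2 := (h1.clm_apply (hasDerivAt_const (0:ℝ) (g (x i))))
    have h3 := h2.inner ℝ (hasDerivAt_const (0:ℝ) (y i))
    simpa using h3
  exact IsLocalMax.hasDerivAt_eq_zero (Filter.Eventually.of_forall hle) hder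

/-- The configurations allowed in a motion. -/
def Feas (c : ℝ) (y : ι → V) : Prop :=
  (∀ i, ‖y i‖ = 1) ∧ ∀ i j, i ≠ j → ⟪y i, y j⟫ ≤ c

/-- Infinitesimal rigidity (for one-sided first order motions). -/
def InfRigid (c : ℝ) (x : ι → V) : Prop :=
  ∀ δ : ι → V, (∀ i, ⟪x i, δ i⟫ = 0) →
    (∀ i j, i ≠ j → ⟪x i, x j⟫ = c → ⟪x i, δ j⟫ + ⟪x j, δ i⟫ ≤ 0) →
    ∃ A : V →L[ℝ] V, (∀ v, ⟪A v, v⟫ = 0) ∧ ∀ i, δ i = A (x i)

lemma Feas.map {c : ℝ} {y : ι → V} (h : Feas c y) (g : V ≃ₗᵢ[ℝ] V) : Feas c (fun i => g (y i)) :=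
  ⟨fun i => by rw [g.norm_map]; exact h.1 i, fun i j hij => by
    rw [g.inner_map_map]; exact h.2 i j hij⟩

/-- The normalised displacement from the gauge-fixed configuration. -/
lemma gauge_fixed {c : ℝ} {x y : ι → V} (hx : Feas c x) (hy : Feas c y)
    (hnc : ¬ ∃ g : V ≃ₗᵢ[ℝ] V, ∀ i, y i = g (x i)) {ε : ℝ} (hε : ∀ i, ‖y i - x i‖ ≤ ε) :
    ∃ d : ι → V, d ≠ 0 ∧ (∀ i, ‖d i‖ ^ 2 ≤ Fintype.card ι * ε ^ 2) ∧ Feas c (x + d) ∧
      ∀ A : V →L[ℝ] V, (∀ v, ⟪A v, v⟫ = 0) → ∑ i, ⟪A (x i), d i⟫ = 0 := by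
  obtain ⟨g, hg, hmax, hgauge⟩ := exists_gauge x y
  let G := Iso.equiv hg
  have hG : ∀ v, G v = g v := fun v => rfl
  refine ⟨fun i => G.symm (y i) - x i, ?_, ?_, ?_, ?_⟩
  · intro h0
    apply hnc
    refine ⟨G, fun i => ?_⟩
    have := congrFun h0 i
    simp only [Pi.zero_apply, sub_eq_zero] at this
    rw [← this, G.apply_symm_apply]
  · intro i
    have h1 : ∑ j, ‖G.symm (y j) - x j‖ ^ 2 ≤ ∑ j, ‖y j - x j‖ ^ 2 := by
      have e1 : ∀ j, ‖G.symm (y j) - x j‖ ^ 2 = 2 - 2 * ⟪g (x j), y j⟫ := by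
        intro j
        have : ‖G.symm (y j) - x j‖ = ‖y j - G (x j)‖ := by
          rw [← G.norm_map (G.symm (y j) - x j), map_sub, G.apply_symm_apply]
        rw [this, norm_sub_sq_real, hy.1 j, G.norm_map, hx.1 j, hG, real_inner_comm]
        ring
      have e2 : ∀ j, ‖y j - x j‖ ^ 2 = 2 - 2 * ⟪x j, y j⟫ := by
        intro j
        rw [norm_sub_sq_real, hy.1 j, hx.1 j, real_inner_comm]
        ring
      simp_rw [e1, e2, Finset.sum_sub_distrib, ← Finset.mul_sum]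
      have := hmax 1 (fun v => rfl)
      simp only [one_apply_eq_self] at this
      linarith
    calc ‖G.symm (y i) - x i‖ ^ 2 ≤ ∑ j, ‖G.symm (y j) - x j‖ ^ 2 :=
          Finset.single_le_sum (f := fun j => ‖G.symm (y j) - x j‖ ^ 2)
            (fun j _ => by positivity) (Finset.mem_univ i)
      _ ≤ ∑ j, ‖y j - x j‖ ^ 2 := h1
      _ ≤ ∑ _j : ι, ε ^ 2 := Finset.sum_le_sum fun j _ => by
          have := hε j
          gcongr
      _ = Fintype.card ι * ε ^ 2 := by simp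
  · have : x + (fun i => G.symm (y i) - x i) = fun i => G.symm (y i) := by
      ext1 i; simp
    rw [this]
    exact hy.map G.symm
  · intro A hA
    -- conjugate `A` by `g`
    let B : V →L[ℝ] V := (G : V →L[ℝ] V) * A * (G.symm : V →L[ℝ] V)
    have hBv : ∀ v, B v = G (A (G.symm v)) := fun v => rfl
    have hB : ∀ v, ⟪B v, v⟫ = 0 := by
      intro v
      rw [hBv]
      conv_lhs => rw [← G.apply_symm_apply v, G.inner_map_map, G.symm_apply_apply]
      exact hA _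
    have h1 := hgauge B hB
    have h2 : ∀ i, ⟪B (g (x i)), y i⟫ = ⟪A (x i), G.symm (y i) - x i⟫ := by
      intro i
      rw [hBv, ← hG, G.symm_apply_apply, inner_sub_right, hA, sub_zero]
      conv_lhs => rw [← G.apply_symm_apply (y i), G.inner_map_map]
    simp_rw [h2] at h1
    exact h1

/-- **Local lemma.** -/
theorem local_rigid {c : ℝ} {x : ι → V} (hx : Feas c x) (hinf : InfRigid c x) :
    ∃ ε > 0, ∀ y : ι → V, Feas c y → (∀ i, ‖y i - x i‖ ≤ ε) →
      ∃ g : V ≃ₗᵢ[ℝ] V, ∀ i, y i = g (x i) := by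
  by_contra hcon
  push Not at hcon
  have hstep : ∀ n : ℕ, ∃ d : ι → V, d ≠ 0 ∧
      (∀ i, ‖d i‖ ^ 2 ≤ Fintype.card ι * (1 / ((n : ℝ) + 1)) ^ 2) ∧ Feas c (x + d) ∧
      ∀ A : V →L[ℝ] V, (∀ v, ⟪A v, v⟫ = 0) → ∑ i, ⟪A (x i), d i⟫ = 0 := by
    intro n
    obtain ⟨y, hy, hyε, hnc⟩ := hcon (1 / ((n : ℝ) + 1)) (by positivity)
    exact gauge_fixed hx hy (by push Not; exact hnc) hyε
  choose d hd0 hdn hdf hdg using hstep
  -- the displacements tend to zero
  have hdlim : Tendsto (fun n => ‖d n‖) atTop (𝓝 0) := by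
    have hb : ∀ n, ‖d n‖ ≤ Real.sqrt (Fintype.card ι) * (1 / ((n : ℝ) + 1)) := by
      intro n
      rw [pi_norm_le_iff_of_nonneg (by positivity)]
      intro i
      have := Real.sqrt_le_sqrt (hdn n i)
      rwa [Real.sqrt_sq (norm_nonneg _), Real.sqrt_mul (by positivity),
        Real.sqrt_sq (by positivity)] at this
    have hz : Tendsto (fun n : ℕ => Real.sqrt (Fintype.card ι) * (1 / ((n : ℝ) + 1))) atTop
        (𝓝 0) := by
      have := (tendsto_one_div_add_atTop_nhds_zero_nat (𝕜 := ℝ)).const_mul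
        (Real.sqrt (Fintype.card ι))
      rwa [mul_zero] at this
    exact squeeze_zero (fun n => norm_nonneg _) hb hz
  -- normalise
  let e : ℕ → (ι → V) := fun n => (‖d n‖)⁻¹ • d n
  have hdpos : ∀ n, 0 < ‖d n‖ := fun n => norm_pos_iff.2 (hd0 n)
  have he : ∀ n, e n ∈ Metric.sphere (0 : ι → V) 1 := by
    intro n
    rw [mem_sphere_zero_iff_norm, norm_smul, norm_inv, norm_norm,
      inv_mul_cancel₀ (hdpos n).ne']
  have : ProperSpace (ι → V) := inferInstance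
  obtain ⟨e₀, he₀, φ, hφ, hlim⟩ := (isCompact_sphere (0 : ι → V) 1).tendsto_subseq he
  have hlimi : ∀ i, Tendsto (fun n => e (φ n) i) atTop (𝓝 (e₀ i)) :=
    fun i => (tendsto_pi_nhds.1 hlim) i
  have hdlim' : Tendsto (fun n => ‖d (φ n)‖) atTop (𝓝 0) := hdlim.comp hφ.tendsto_atTop
  have hein : ∀ n i, e n i = (‖d n‖)⁻¹ • d n i := fun n i => rfl
  have h1 : ∀ i, ⟪x i, e₀ i⟫ = 0 := by
    intro i
    have hl : Tendsto (fun n => ⟪x i, e (φ n) i⟫) atTop (𝓝 ⟪x i, e₀ i⟫) :=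
      tendsto_const_nhds.inner (hlimi i)
    have hz : Tendsto (fun n => ⟪x i, e (φ n) i⟫) atTop (𝓝 0) := by
      apply squeeze_zero_norm _ hdlim'
      intro n
      have hf := (hdf (φ n)).1 i
      have hx1 := hx.1 i
      have h2 : ‖x i + d (φ n) i‖ ^ 2 = 1 := by
        have : (x + d (φ n)) i = x i + d (φ n) i := rfl
        rw [← this, hf]; norm_num
      rw [norm_add_sq_real, hx1] at h2
      have h3 : ⟪x i, d (φ n) i⟫ = -(‖d (φ n) i‖ ^ 2) / 2 := by linarith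
      rw [hein, inner_smul_right, h3, Real.norm_eq_abs, abs_mul, abs_inv, abs_norm,
        abs_div, abs_neg, abs_of_nonneg (by positivity : (0:ℝ) ≤ ‖d (φ n) i‖ ^ 2),
        abs_of_pos (by norm_num : (0:ℝ) < 2)]
      have h4 : ‖d (φ n) i‖ ≤ ‖d (φ n)‖ := norm_le_pi_norm _ i
      have h5 := hdpos (φ n)
      rw [inv_mul_le_iff₀ h5]
      nlinarith [norm_nonneg (d (φ n) i)]
    exact tendsto_nhds_unique hl hz
  have h2 : ∀ i j, i ≠ j → ⟪x i, x j⟫ = c → ⟪x i, e₀ j⟫ + ⟪x j, e₀ i⟫ ≤ 0 := by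
    intro i j hij hc
    have hl : Tendsto (fun n => ⟪x i, e (φ n) j⟫ + ⟪x j, e (φ n) i⟫) atTop
        (𝓝 (⟪x i, e₀ j⟫ + ⟪x j, e₀ i⟫)) :=
      (tendsto_const_nhds.inner (hlimi j)).add (tendsto_const_nhds.inner (hlimi i))
    refine le_of_tendsto_of_tendsto hl hdlim' (Eventually.of_forall fun n => ?_)
    have hf := (hdf (φ n)).2 i j hij
    have h3 : ⟪x i + d (φ n) i, x j + d (φ n) j⟫ ≤ c := hf
    rw [inner_add_left, inner_add_right, inner_add_right, hc] at h3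
    simp only [hein, inner_smul_right]
    have h5 := hdpos (φ n)
    rw [← mul_add, inv_mul_le_iff₀ h5, real_inner_comm (d (φ n) i) (x j)]
    have h6 : |⟪d (φ n) i, d (φ n) j⟫| ≤ ‖d (φ n) i‖ * ‖d (φ n) j‖ := abs_real_inner_le_norm _ _
    have h7 : ‖d (φ n) i‖ * ‖d (φ n) j‖ ≤ ‖d (φ n)‖ * ‖d (φ n)‖ :=
      mul_le_mul (norm_le_pi_norm _ i) (norm_le_pi_norm _ j) (norm_nonneg _) (norm_nonneg _)
    have h8 := (abs_le.1 (h6.trans h7)).1
    linarith
  have h3 : ∀ A : V →L[ℝ] V, (∀ v, ⟪A v, v⟫ = 0) → ∑ i, ⟪A (x i), e₀ i⟫ = 0 := by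
    intro A hA
    have hl : Tendsto (fun n => ∑ i, ⟪A (x i), e (φ n) i⟫) atTop (𝓝 (∑ i, ⟪A (x i), e₀ i⟫)) :=
      tendsto_finsetSum _ fun i _ => tendsto_const_nhds.inner (hlimi i)
    have hz : ∀ n, ∑ i, ⟪A (x i), e (φ n) i⟫ = 0 := by
      intro n
      simp_rw [hein, inner_smul_right, ← Finset.mul_sum, hdg (φ n) A hA, mul_zero]
    simp_rw [hz] at hl
    exact (tendsto_nhds_unique hl tendsto_const_nhds)
  obtain ⟨A, hA, hAe⟩ := hinf e₀ h1 h2
  have h4 := h3 A hA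
  simp_rw [← hAe, real_inner_self_eq_norm_sq] at h4
  rw [Finset.sum_eq_zero_iff_of_nonneg (fun i _ => by positivity)] at h4
  have h5 : e₀ = 0 := by
    ext1 i
    have := h4 i (Finset.mem_univ i)
    simpa using this
  rw [h5, mem_sphere_zero_iff_norm, norm_zero] at he₀
  exact zero_ne_one he₀

/-- **Path lemma.** An infinitesimally rigid configuration admits only trivial motions. -/
theorem motion_trivial {c : ℝ} {x : ι → V} (hx : Feas c x) (hinf : InfRigid c x)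
    (γ : ι → ℝ → V) (hcont : ∀ i, ContinuousOn (γ i) (Icc 0 1)) (h0 : ∀ i, γ i 0 = x i)
    (hf : ∀ t ∈ Icc (0 : ℝ) 1, Feas c (fun i => γ i t)) :
    ∀ t ∈ Icc (0 : ℝ) 1, ∃ g : V ≃ₗᵢ[ℝ] V, ∀ i, γ i t = g (x i) := by
  let s : Set ℝ := {t | ∃ g : V ≃ₗᵢ[ℝ] V, ∀ i, γ i t = g (x i)}
  change Icc (0 : ℝ) 1 ⊆ s
  obtain ⟨ε, hε, hloc⟩ := local_rigid hx hinf
  apply IsClosed.Icc_subset_of_forall_mem_nhdsWithin
  · apply IsSeqClosed.isClosed
    intro u t hu hut
    have htI : t ∈ Icc (0 : ℝ) 1 := isClosed_Icc.mem_of_tendsto hut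
      (Eventually.of_forall fun n => (hu n).2)
    refine ⟨?_, htI⟩
    have hex : ∀ n, ∃ g : V →L[ℝ] V, g ∈ Iso V ∧ ∀ i, γ i (u n) = g (x i) := by
      intro n
      obtain ⟨g, hg⟩ := (hu n).1
      exact ⟨(g : V →L[ℝ] V), fun v => g.norm_map v, hg⟩
    choose g hgI hg using hex
    obtain ⟨g₀, hg₀, φ, hφ, hlim⟩ := (isCompact_iso (V := V)).tendsto_subseq hgI
    refine ⟨Iso.equiv hg₀, fun i => ?_⟩
    have l1 : Tendsto (fun n => γ i (u (φ n))) atTop (𝓝 (γ i t)) := by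
      have h1 : Tendsto (fun n => u (φ n)) atTop (𝓝[Icc 0 1] t) :=
        tendsto_nhdsWithin_iff.2 ⟨hut.comp hφ.tendsto_atTop,
          Eventually.of_forall fun n => (hu _).2⟩
      exact ((hcont i) t htI).tendsto.comp h1
    have l2 : Tendsto (fun n => g (φ n) (x i)) atTop (𝓝 (g₀ (x i))) :=
      ((ContinuousLinearMap.apply ℝ V (x i)).continuous.tendsto g₀).comp hlim
    simp_rw [hg] at l1
    exact tendsto_nhds_unique l1 l2
  · refine ⟨LinearIsometryEquiv.refl ℝ V, fun i => ?_⟩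
    simp [h0 i]
  · rintro t ⟨⟨g, hg⟩, ht⟩
    have htI : t ∈ Icc (0 : ℝ) 1 := ⟨ht.1, ht.2.le⟩
    have hev : ∀ᶠ τ in 𝓝[Icc 0 1] t, ∀ i, ‖γ i τ - γ i t‖ < ε := by
      rw [eventually_all]
      intro i
      have h1 : Tendsto (fun τ => γ i τ - γ i t) (𝓝[Icc 0 1] t) (𝓝 (γ i t - γ i t)) :=
        ((hcont i) t htI).tendsto.sub tendsto_const_nhds
      rw [sub_self] at h1
      have h2 := h1.norm
      rw [norm_zero] at h2
      exact h2.eventually_lt_const hε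
    have hev' : ∀ᶠ τ in 𝓝[Icc 0 1] t, τ ∈ s := by
      filter_upwards [hev, self_mem_nhdsWithin] with τ hτ hτI
      obtain ⟨h, hh⟩ := hloc (fun i => g.symm (γ i τ)) ((hf τ hτI).map g.symm) (fun i => by
        have : g.symm (γ i τ) - x i = g.symm (γ i τ - γ i t) := by
          rw [map_sub, hg i, g.symm_apply_apply]
        rw [this, g.symm.norm_map]
        exact (hτ i).le)
      refine ⟨h.trans g, fun i => ?_⟩
      rw [LinearIsometryEquiv.trans_apply, ← hh i, g.apply_symm_apply]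
    have hle : 𝓝[>] t ≤ 𝓝[Icc 0 1] t := by
      apply nhdsWithin_le_of_mem
      exact mem_of_superset (Ioo_mem_nhdsGT ht.2) fun y hy => ⟨ht.1.trans hy.1.le, hy.2.le⟩
    exact hle hev'

end Pool.Agent.H76.Jam
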