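import Pool.Agent.H76.BWSym
import Pool.Agent.H76.Dn
import Pool.Agent.H76.JamGeneral

/-!
# Infinitesimal rigidity of the minimal vectors of the Barnes-Wall lattices
-/

open scoped RealInnerProductSpace

namespace Pool.Agent.H76.Jam

/-- index set of a real orthogonal frame -/
abbrev J (m : ℕ) := (Fin m → Fin 2) × Fin 2

/-- the real orthogonal frame `ζ i^x e_a` -/
noncomputable def fv {m : ℕ} (ζ : ℂ) (p : J m) : E m := (ζ * Complex.I ^ (p.2 : ℕ)) • e p.1

lemma inner_fv {m : ℕ} (ζ : ℂ) (p q : J m) :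
    ⟪fv ζ p, fv ζ q⟫ = if p = q then ‖ζ‖ ^ 2 else 0 := by
  rw [fv, fv, inner_unit_smul_e, PiLp.smul_apply, e_apply]
  by_cases h : q.1 = p.1
  · rw [if_pos h, smul_eq_mul, mul_one]
    obtain ⟨a, x⟩ := p
    obtain ⟨b, y⟩ := q
    simp only at h
    subst h
    have key : (ζ * Complex.I ^ (x : ℕ) * (starRingEnd ℂ) (ζ * Complex.I ^ (y : ℕ))) =
        ((‖ζ‖ ^ 2 : ℝ) : ℂ) * (Complex.I ^ (x : ℕ) * (starRingEnd ℂ) (Complex.I ^ (y : ℕ))) := by
      rw [map_mul, ← Complex.normSq_eq_norm_sq, ← Complex.mul_conj]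
      ring
    simp only [key, Complex.re_ofReal_mul]
    fin_cases x <;> fin_cases y <;> simp
  · have h' : p ≠ q := fun hpq => h (by rw [hpq])
    rw [if_neg h, if_neg h', smul_zero, zero_mul]
    rfl

lemma linInd_fv {m : ℕ} {ζ : ℂ} (hζ : ζ ≠ 0) : LinearIndependent ℝ (fv ζ : J m → E m) := by
  apply linearIndependent_of_ne_zero_of_inner_eq_zero
  · intro p h
    have := inner_fv ζ p p
    rw [h, inner_zero_left, if_pos rfl] at this
    have h2 : ‖ζ‖ ≠ 0 := norm_ne_zero_iff.2 hζ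
    exact h2 (by simpa using this.symm)
  · intro p q hpq
    change ⟪fv ζ p, fv ζ q⟫ = 0
    rw [inner_fv, if_neg hpq]

lemma card_J (m : ℕ) : Fintype.card (J m) = 2 ^ (m + 1) := by
  simp [pow_succ]

lemma finrank_E (m : ℕ) : Module.finrank ℝ (E m) = 2 ^ (m + 1) := by
  rw [finrank_real_of_complex, finrank_euclideanSpace]
  simp [pow_succ']

/-- the frame as a real basis -/
noncomputable def fb {m : ℕ} {ζ : ℂ} (hζ : ζ ≠ 0) : Module.Basis (J m) ℝ (E m) :=
  basisOfLinearIndependentOfCardEqFinrank (linInd_fv hζ) (by rw [card_J, finrank_E])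

lemma fb_apply {m : ℕ} {ζ : ℂ} (hζ : ζ ≠ 0) (p : J m) : fb hζ p = fv ζ p := by
  simp [fb]

/-- a complex isometry as a real one -/
noncomputable def toReal {m : ℕ} (g : E m ≃ₗᵢ[ℂ] E m) : E m ≃ₗᵢ[ℝ] E m where
  toLinearEquiv := g.toLinearEquiv.restrictScalars ℝ
  norm_map' := g.norm_map

lemma toReal_apply {m : ℕ} (g : E m ≃ₗᵢ[ℂ] E m) (v : E m) : toReal g v = g v := rfl

lemma real_smul_eq {m : ℕ} (s : ℝ) (v : E m) : s • v = (s : ℂ) • v := by
  ext a
  simp

lemma sign_U {s : ℝ} (hs : s = 1 ∨ s = -1) (x : Fin 2) : (s : ℂ) * Complex.I ^ (x : ℕ) ∈ U := by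
  rcases hs with rfl | rfl <;> fin_cases x <;> simp [U]

lemma L_type2 {m : ℕ} {a b : Fin m → Fin 2} (hab : a ≠ b) {ε η : ℂ} (hε : ε ∈ U) (hη : η ∈ U) :
    L m (φ ^ (m - 1) • (ε • e a + η • e b)) := by
  have hm : m ≠ 0 := by
    rintro rfl
    exact hab (Subsingleton.elim _ _)
  obtain ⟨z, hz, hz'⟩ := L_e_sub a b
  obtain ⟨c, hc⟩ := U_sub hε
  obtain ⟨d, hd⟩ := U_sub hη
  obtain ⟨w, hw, hw'⟩ := L_two (L_e b)
  have key : φ ^ (m - 1) • (ε • e a + η • e b) =
      ε • z + ((c : ℂ) • (φ ^ m • e b) + ((d : ℂ) • (φ ^ m • e b) + w)) := by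
    apply φ_cancel
    have e1 : φ • φ ^ (m - 1) • (ε • e a + η • e b) = φ ^ m • (ε • e a + η • e b) := by
      rw [smul_smul, mul_comm, pow_sub_one_mul hm]
    have e2 : ε = 1 + φ * c := by rw [← hc]; ring
    have e3 : η = 1 + φ * d := by rw [← hd]; ring
    rw [e1, smul_add, smul_add, smul_add, smul_add, ← hw', smul_comm φ ε z, ← hz', smul_smul φ, smul_smul φ,
      ← hc, ← hd]
    simp only [smul_sub, smul_add, smul_smul, sub_mul, sub_smul, one_mul, two_mul, add_smul,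
      mul_comm ε, mul_comm η]
    abel
  rw [key]
  exact L_add (L_unit hε hz) (L_add (L_smul c (L_e b)) (L_add (L_smul d (L_e b)) hw))

/-- sums of two frame vectors are in the lattice -/
lemma L_root {m : ℕ} (hm : m ≠ 0) {p q : J m} (hpq : p ≠ q) {s t : ℝ} (hs : s = 1 ∨ s = -1)
    (ht : t = 1 ∨ t = -1) : L m (s • fv (φ ^ (m - 1)) p + t • fv (φ ^ (m - 1)) q) := by
  obtain ⟨a, x⟩ := p
  obtain ⟨b, y⟩ := q
  rw [real_smul_eq, real_smul_eq, fv, fv]
  by_cases hab : a = b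
  · subst hab
    have hxy : x ≠ y := fun h => hpq (by rw [h])
    have key : ∃ ε ∈ U, (s : ℂ) * Complex.I ^ (x : ℕ) + (t : ℂ) * Complex.I ^ (y : ℕ) =
        ε * φ := by
      have hI : ∀ u v : ℝ, (u = 1 ∨ u = -1) → (v = 1 ∨ v = -1) →
          ∃ ε ∈ U, (u : ℂ) + (v : ℂ) * Complex.I = ε * φ := by
        intro u v hu hv
        rcases hu with rfl | rfl <;> rcases hv with rfl | rfl
        · exact ⟨1, by simp [U], by simp [φ]⟩
        · refine ⟨-Complex.I, by simp [U], ?_⟩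
          simp only [φ]
          apply Complex.ext <;> simp
        · refine ⟨Complex.I, by simp [U], ?_⟩
          simp only [φ]
          apply Complex.ext <;> simp
        · refine ⟨-1, by simp [U], ?_⟩
          simp only [φ]
          apply Complex.ext <;> simp
      fin_cases x <;> fin_cases y
      · exact absurd rfl hxy
      · simpa using hI s t hs ht
      · have := hI t s ht hs
        simpa [add_comm] using this
      · exact absurd rfl hxy
    obtain ⟨ε, hε, hεφ⟩ := key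
    have e1 : (s : ℂ) • (φ ^ (m - 1) * Complex.I ^ (x : ℕ)) • (e a : E m) +
        (t : ℂ) • (φ ^ (m - 1) * Complex.I ^ (y : ℕ)) • e a = ε • (φ ^ m • e a) := by
      rw [smul_smul, smul_smul, smul_smul, ← add_smul]
      congr 1
      have : (s : ℂ) * (φ ^ (m - 1) * Complex.I ^ (x : ℕ)) +
          (t : ℂ) * (φ ^ (m - 1) * Complex.I ^ (y : ℕ)) =
          φ ^ (m - 1) * ((s : ℂ) * Complex.I ^ (x : ℕ) + (t : ℂ) * Complex.I ^ (y : ℕ)) := by ring
      rw [this, hεφ, ← pow_sub_one_mul hm φ]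
      ring
    simp only
    rw [e1]
    exact L_unit hε (L_e a)
  · have := L_type2 hab (sign_U hs x) (sign_U ht y)
    have e1 : (s : ℂ) • (φ ^ (m - 1) * Complex.I ^ (x : ℕ)) • (e a : E m) +
        (t : ℂ) • (φ ^ (m - 1) * Complex.I ^ (y : ℕ)) • e b =
        φ ^ (m - 1) • (((s : ℂ) * Complex.I ^ (x : ℕ)) • e a +
          ((t : ℂ) * Complex.I ^ (y : ℕ)) • e b) := by
      rw [smul_add]
      simp only [smul_smul]
      congr 2 <;> ring
    simp only
    rw [e1]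
    exact this

lemma norm_pow_φ (n : ℕ) : ‖φ ^ n‖ ^ 2 = (2 : ℝ) ^ n := by
  rw [norm_pow, ← pow_mul, mul_comm, pow_mul, normSq_φ]

lemma S_root {m : ℕ} (hm : m ≠ 0) {p q : J m} (hpq : p ≠ q) {s t : ℝ} (hs : s = 1 ∨ s = -1)
    (ht : t = 1 ∨ t = -1) : S m (s • fv (φ ^ (m - 1)) p + t • fv (φ ^ (m - 1)) q) := by
  refine ⟨L_root hm hpq hs ht, ?_⟩
  rw [← real_inner_self_eq_norm_sq]
  simp only [inner_add_left, inner_add_right, real_inner_smul_left, real_inner_smul_right,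
    inner_fv, if_true, hpq, hpq.symm, if_false, norm_pow_φ]
  rw [← pow_sub_one_mul hm (2 : ℝ)]
  rcases hs with rfl | rfl <;> rcases ht with rfl | rfl <;> ring

/-- frame vectors are of the form `± b p ± b q` -/
lemma F0_root {m : ℕ} (hm : m ≠ 0) {x : E m} (hx : F0 m x) : ∃ p q : J m, p ≠ q ∧
    ∃ s t : ℝ, (s = 1 ∨ s = -1) ∧ (t = 1 ∨ t = -1) ∧
      x = s • fv (φ ^ (m - 1)) p + t • fv (φ ^ (m - 1)) q := by
  have hU : ∀ ε ∈ U, ∃ (s : ℝ) (y : Fin 2), (s = 1 ∨ s = -1) ∧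
      ε = (s : ℂ) * Complex.I ^ (y : ℕ) := by
    intro ε hε
    simp only [U, Set.mem_insert_iff, Set.mem_singleton_iff] at hε
    rcases hε with rfl | rfl | rfl | rfl
    · exact ⟨1, 0, by simp, by simp⟩
    · exact ⟨-1, 0, by simp, by simp⟩
    · exact ⟨1, 1, by simp, by simp⟩
    · exact ⟨-1, 1, by simp, by simp⟩
  rcases hx with ⟨ε, hε, a, rfl⟩ | ⟨a, b, hab, ε, hε, η, hη, rfl⟩
  · have h1 : ∃ s t : ℝ, (s = 1 ∨ s = -1) ∧ (t = 1 ∨ t = -1) ∧
        ε * φ = (s : ℂ) + (t : ℂ) * Complex.I := by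
      simp only [U, Set.mem_insert_iff, Set.mem_singleton_iff] at hε
      rcases hε with rfl | rfl | rfl | rfl
      · exact ⟨1, 1, by simp, by simp, by simp [φ]⟩
      · refine ⟨-1, -1, by simp, by simp, ?_⟩
        simp only [φ]; apply Complex.ext <;> simp
      · refine ⟨-1, 1, by simp, by simp, ?_⟩
        simp only [φ]; apply Complex.ext <;> simp
      · refine ⟨1, -1, by simp, by simp, ?_⟩
        simp only [φ]; apply Complex.ext <;> simp
    obtain ⟨s, t, hs, ht, h⟩ := h1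
    refine ⟨(a, 0), (a, 1), by simp, s, t, hs, ht, ?_⟩
    rw [real_smul_eq, real_smul_eq, fv, fv, smul_smul, smul_smul, ← add_smul]
    congr 1
    rw [← pow_sub_one_mul hm φ, mul_comm _ φ, ← mul_assoc, h]
    simp
    ring
  · obtain ⟨s, y, hs, rfl⟩ := hU ε hε
    obtain ⟨t, z, ht, rfl⟩ := hU η hη
    refine ⟨(a, y), (b, z), fun h => hab (congrArg Prod.fst h), s, t, hs, ht, ?_⟩
    rw [real_smul_eq, real_smul_eq, fv, fv, smul_add]
    simp only [smul_smul]
    congr 2 <;> ring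

lemma S_sub {m : ℕ} {r s : E m} (hr : S m r) (hs : S m s) (h : ⟪r, s⟫ = 2 ^ m / 2) :
    S m (r - s) := by
  refine ⟨L_sub hr.1 hs.1, ?_⟩
  rw [norm_sub_sq_real, hr.2, hs.2, h]
  ring

lemma S_neg {m : ℕ} {r : E m} (hr : S m r) : S m (-r) :=
  ⟨L_neg hr.1, by rw [norm_neg]; exact hr.2⟩

/-- **Hexagon lemma**: all contact inequalities are equalities to first order. -/
lemma hexagon {m : ℕ} (δ : E m → E m) (h1 : ∀ r, S m r → ⟪r, δ r⟫ = 0)
    (h2 : ∀ r s, S m r → S m s → ⟪r, s⟫ = 2 ^ m / 2 → ⟪r, δ s⟫ + ⟪s, δ r⟫ ≤ 0)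
    {r s : E m} (hr : S m r) (hs : S m s) (h : ⟪r, s⟫ = 2 ^ m / 2) :
    ⟪r, δ s⟫ + ⟪s, δ r⟫ = 0 := by
  have hrs := S_sub hr hs h
  have hsr : S m (s - r) := by rw [← neg_sub]; exact S_neg hrs
  have hnr := S_neg hr
  have hns := S_neg hs
  have qr : ⟪r, r⟫ = (2 : ℝ) ^ m := by rw [real_inner_self_eq_norm_sq]; exact hr.2
  have qs : ⟪s, s⟫ = (2 : ℝ) ^ m := by rw [real_inner_self_eq_norm_sq]; exact hs.2
  have h' : ⟪s, r⟫ = 2 ^ m / 2 := by rw [real_inner_comm]; exact h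
  have c1 := h2 r s hr hs h
  have c2 := h2 s (s - r) hs hsr (by rw [inner_sub_right, qs, h']; ring)
  have c3 := h2 (s - r) (-r) hsr hnr (by
    rw [inner_sub_left, inner_neg_right, inner_neg_right, qr, h']; ring)
  have c4 := h2 (-r) (-s) hnr hns (by rw [inner_neg_left, inner_neg_right, neg_neg]; exact h)
  have c5 := h2 (-s) (r - s) hns hrs (by
    rw [inner_sub_right, inner_neg_left, inner_neg_left, qs, h']; ring)
  have c6 := h2 (r - s) r hrs hr (by rw [inner_sub_left, qr, h']; ring)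
  have d1 := h1 r hr
  have d2 := h1 s hs
  have d3 := h1 _ hnr
  have d4 := h1 _ hns
  have d5 := h1 _ hrs
  have d6 := h1 _ hsr
  simp only [inner_sub_left, inner_neg_left] at *
  linarith

/-- The linear motion on each frame. -/
lemma frame_rigid {m : ℕ} (hm : m ≠ 0) (δ : E m → E m) (h1 : ∀ r, S m r → ⟪r, δ r⟫ = 0)
    (h2 : ∀ r s, S m r → S m s → ⟪r, s⟫ = 2 ^ m / 2 → ⟪r, δ s⟫ + ⟪s, δ r⟫ ≤ 0)
    {g : E m ≃ₗᵢ[ℂ] E m} (hg : g ∈ G m) :
    ∃ A : E m →L[ℝ] E m, (∀ v, ⟪A v, v⟫ = 0) ∧ ∀ x, F0 m x → δ (g x) = A (g x) := by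
  classical
  have hζ : (φ ^ (m - 1)) ≠ 0 := pow_ne_zero _ φ_ne_zero
  let b : Module.Basis (J m) ℝ (E m) := (fb hζ).map (toReal g).toLinearEquiv
  have hbg : ∀ p, b p = g (fv (φ ^ (m - 1)) p) := by
    intro p
    rw [Module.Basis.map_apply, fb_apply]
    rfl
  have hin : ∀ u v : E m, ⟪g u, g v⟫ = ⟪u, v⟫ := fun u v => (toReal g).inner_map_map u v
  have hb : ∀ p q, ⟪b p, b q⟫ = if p = q then (2 : ℝ) ^ (m - 1) else 0 := by
    intro p q
    rw [hbg, hbg, hin, inner_fv, norm_pow_φ]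
  have hroot : ∀ (p q : J m) (s t : ℝ), s • b p + t • b q =
      g (s • fv (φ ^ (m - 1)) p + t • fv (φ ^ (m - 1)) q) := by
    intro p q s t
    rw [hbg, hbg]
    have := (toReal g).map_add (s • fv (φ ^ (m - 1)) p) (t • fv (φ ^ (m - 1)) q)
    rw [(toReal g).map_smul, (toReal g).map_smul] at this
    exact this.symm
  have hgS : ∀ v, S m v → S m (g v) := fun v hv =>
    ⟨(G_L hg).1 v hv.1, by rw [g.norm_map]; exact hv.2⟩
  have hSb : ∀ (p q : J m), p ≠ q → ∀ s t : ℝ, (s = 1 ∨ s = -1) → (t = 1 ∨ t = -1) →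
      S m (s • b p + t • b q) := by
    intro p q hpq s t hs ht
    rw [hroot]
    exact hgS _ (S_root hm hpq hs ht)
  have hκ : (2 : ℝ) ^ (m - 1) ≠ 0 := by positivity
  have hcard : 4 ≤ Fintype.card (J m) := by
    rw [card_J]
    calc 4 = 2 ^ (1 + 1) := by norm_num
      _ ≤ 2 ^ (m + 1) := Nat.pow_le_pow_right (by norm_num) (by omega)
  obtain ⟨A, hA, hAδ⟩ := dn_rigid (J := J m) (fun i j k => by
      by_contra hcon
      push Not at hcon
      have hsub : (Finset.univ : Finset (J m)) ⊆ {i, j, k} := by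
        intro l _
        by_cases h1 : l = i
        · simp [h1]
        · by_cases h2 : l = j
          · simp [h2]
          · simp [hcon l h1 h2]
      have h3 := Finset.card_le_card hsub
      rw [Finset.card_univ] at h3
      have h4 : ({i, j, k} : Finset (J m)).card ≤ 3 := Finset.card_le_three
      omega) b hκ hb δ
    (fun i j hij s t hs ht => h1 _ (hSb i j hij s t hs ht))
    (fun i j k hij hik hjk x y z hx hy hz => by
      apply hexagon δ h1 h2 (hSb i j hij x y hx hy) (hSb i k hik x z hx hz)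
      simp only [inner_add_left, inner_add_right, real_inner_smul_left, real_inner_smul_right, hb,
        if_true, hij, hik, hjk, hij.symm, if_false]
      rw [← pow_sub_one_mul hm (2 : ℝ)]
      rcases hx with rfl | rfl <;> ring)
  refine ⟨A, hA, fun x hx => ?_⟩
  obtain ⟨p, q, hpq, s, t, hs, ht, rfl⟩ := F0_root hm hx
  rw [← hroot]
  exact hAδ p q hpq s t hs ht

/-- A real linear map vanishing on the image of the type one vectors vanishes. -/
lemma eq_of_X0 {m : ℕ} (g : E m ≃ₗᵢ[ℂ] E m) (A B : E m →L[ℝ] E m)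
    (h : ∀ x, X0 m x → A (g x) = B (g x)) : A = B := by
  have hζ : (φ ^ m) ≠ 0 := pow_ne_zero _ φ_ne_zero
  let b : Module.Basis (J m) ℝ (E m) := (fb hζ).map (toReal g).toLinearEquiv
  have hbg : ∀ p, b p = g (fv (φ ^ m) p) := by
    intro p
    rw [Module.Basis.map_apply, fb_apply]
    rfl
  have h1 : A.toLinearMap = B.toLinearMap := by
    apply b.ext
    intro p
    rw [hbg]
    apply h
    refine ⟨Complex.I ^ (p.2 : ℕ), ?_, p.1, ?_⟩
    · have := sign_U (s := 1) (Or.inl rfl) p.2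
      simpa using this
    · rw [fv, mul_comm]
  ext v
  exact congrArg (fun C : E m →ₗ[ℝ] E m => C v) h1 ▸ rfl

/-- **Infinitesimal rigidity** of the minimal vectors, `m ≥ 1`. -/
theorem bw_inf {m : ℕ} (hm : m ≠ 0) (δ : E m → E m) (h1 : ∀ r, S m r → ⟪r, δ r⟫ = 0)
    (h2 : ∀ r s, S m r → S m s → ⟪r, s⟫ = 2 ^ m / 2 → ⟪r, δ s⟫ + ⟪s, δ r⟫ ≤ 0) :
    ∃ A : E m →L[ℝ] E m, (∀ v, ⟪A v, v⟫ = 0) ∧ ∀ r, S m r → δ r = A r := by
  obtain ⟨A, hA, hA1⟩ := frame_rigid hm δ h1 h2 (one_mem (G m))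
  have key : ∀ g ∈ G m, ∀ x, F0 m x → δ (g x) = A (g x) := by
    intro g hg
    induction hg using Submonoid.closure_induction_right with
    | one => exact hA1
    | mul_right g hg h hh ih =>
      have hgh : g * h ∈ G m := mul_mem hg (Submonoid.subset_closure hh)
      obtain ⟨B, hB, hB1⟩ := frame_rigid hm δ h1 h2 hgh
      have hAB : B = A := by
        apply eq_of_X0 (g * h)
        intro x hx
        rw [← hB1 x (Or.inl hx)]
        exact ih _ (hh.2.2 x hx)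
      rw [← hAB]
      exact hB1
  refine ⟨A, hA, fun r hr => ?_⟩
  obtain ⟨g, hg, rfl⟩ := transitive m r hr
  exact key g hg _ (Or.inl (x0_X0 m))

end Pool.Agent.H76.Jam
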