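import Pool.Agent.H76.BW

/-!
# Symmetries of the Barnes-Wall lattices and transitivity on minimal vectors
-/

open scoped RealInnerProductSpace

namespace Pool.Agent.H76.Jam

/-- the units `±1, ±i` -/
def U : Set ℂ := {1, -1, Complex.I, -Complex.I}

lemma U_one : (1 : ℂ) ∈ U := by simp [U]
lemma U_neg {ε : ℂ} (h : ε ∈ U) : -ε ∈ U := by
  simp only [U, Set.mem_insert_iff, Set.mem_singleton_iff] at h ⊢
  rcases h with rfl | rfl | rfl | rfl <;> simp
lemma U_mul {ε η : ℂ} (h : ε ∈ U) (h' : η ∈ U) : ε * η ∈ U := by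
  simp only [U, Set.mem_insert_iff, Set.mem_singleton_iff] at h h' ⊢
  rcases h with rfl | rfl | rfl | rfl <;> rcases h' with rfl | rfl | rfl | rfl <;> simp
lemma U_inv {ε : ℂ} (h : ε ∈ U) : ε⁻¹ ∈ U := by
  simp only [U, Set.mem_insert_iff, Set.mem_singleton_iff] at h ⊢
  rcases h with rfl | rfl | rfl | rfl <;> simp
lemma U_norm {ε : ℂ} (h : ε ∈ U) : ‖ε‖ = 1 := by
  simp only [U, Set.mem_insert_iff, Set.mem_singleton_iff] at h
  rcases h with rfl | rfl | rfl | rfl <;> simp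
lemma U_ne_zero {ε : ℂ} (h : ε ∈ U) : ε ≠ 0 := by
  intro h0
  have := U_norm h
  rw [h0, norm_zero] at this
  norm_num at this
lemma U_gauss {ε : ℂ} (h : ε ∈ U) : ∃ c : GaussianInt, (c : ℂ) = ε := by
  simp only [U, Set.mem_insert_iff, Set.mem_singleton_iff] at h
  rcases h with rfl | rfl | rfl | rfl
  · exact ⟨1, by simp⟩
  · exact ⟨-1, by simp⟩
  · exact ⟨⟨0, 1⟩, by simp [GaussianInt.toComplex_def]⟩
  · exact ⟨⟨0, -1⟩, by simp [GaussianInt.toComplex_def]⟩
/-- `ε - η` is divisible by `φ` for units `ε`, `η`. -/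
lemma U_sub {ε : ℂ} (h : ε ∈ U) : ∃ c : GaussianInt, ε - 1 = φ * (c : ℂ) := by
  simp only [U, Set.mem_insert_iff, Set.mem_singleton_iff] at h
  rcases h with rfl | rfl | rfl | rfl
  · exact ⟨0, by simp⟩
  · refine ⟨⟨-1, 1⟩, ?_⟩
    simp only [GaussianInt.toComplex_def, φ]
    apply Complex.ext
    · simp
      try norm_num
    · simp
  · refine ⟨⟨0, 1⟩, ?_⟩
    simp only [GaussianInt.toComplex_def, φ]
    apply Complex.ext <;> simp
  · refine ⟨⟨-1, 0⟩, ?_⟩
    simp only [GaussianInt.toComplex_def, φ]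
    apply Complex.ext <;> simp

lemma two_eq : (2 : ℂ) = φ * ((⟨1, -1⟩ : GaussianInt) : ℂ) := by
  simp only [GaussianInt.toComplex_def, φ]
  apply Complex.ext
  · simp; norm_num
  · simp

lemma L_two {m : ℕ} {v : E m} (hv : L m v) : ∃ z, L m z ∧ (2 : ℂ) • v = φ • z :=
  ⟨((⟨1, -1⟩ : GaussianInt) : ℂ) • v, L_smul _ hv, by rw [smul_smul, ← two_eq]⟩

lemma L_unit {m : ℕ} {ε : ℂ} (h : ε ∈ U) {v : E m} (hv : L m v) : L m (ε • v) := by
  obtain ⟨c, rfl⟩ := U_gauss h
  exact L_smul c hv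

lemma φ_cancel {m : ℕ} {u v : E m} (h : φ • u = φ • v) : u = v :=
  smul_right_injective _ φ_ne_zero h

/-- type one vectors: `ε φ^m e_a` -/
def X0 (m : ℕ) (x : E m) : Prop := ∃ ε ∈ U, ∃ a : Fin m → Fin 2, x = (ε * φ ^ m) • e a

/-- the standard frame -/
def F0 (m : ℕ) (x : E m) : Prop :=
  X0 m x ∨ ∃ a b : Fin m → Fin 2, a ≠ b ∧ ∃ ε ∈ U, ∃ η ∈ U,
    x = φ ^ (m - 1) • (ε • e a + η • e b)

lemma X0_neg {m : ℕ} {x : E m} (h : X0 m x) : X0 m (-x) := by
  obtain ⟨ε, hε, a, rfl⟩ := h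
  exact ⟨-ε, U_neg hε, a, by rw [neg_mul, neg_smul]⟩

lemma X0_succ {m : ℕ} {x : E (m + 1)} (h : X0 (m + 1) x) :
    (∃ y, X0 m y ∧ x = pair (φ • y) 0) ∨ (∃ y, X0 m y ∧ x = pair 0 (φ • y)) := by
  obtain ⟨ε, hε, a, rfl⟩ := h
  rw [← Fin.cons_self_tail a]
  have : a 0 = 0 ∨ a 0 = 1 := Fin.exists_fin_two.1 ⟨a 0, rfl⟩
  rcases this with h | h
  · left
    refine ⟨(ε * φ ^ m) • e (Fin.tail a), ⟨ε, hε, _, rfl⟩, ?_⟩
    rw [h, e_cons_zero, pair_smul, smul_zero, smul_smul]
    congr 2; ring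
  · right
    refine ⟨(ε * φ ^ m) • e (Fin.tail a), ⟨ε, hε, _, rfl⟩, ?_⟩
    rw [h, e_cons_one, pair_smul, smul_zero, smul_smul]
    congr 2; ring

lemma X0_pair_left {m : ℕ} {y : E m} (h : X0 m y) : X0 (m + 1) (pair (φ • y) 0) := by
  obtain ⟨ε, hε, a, rfl⟩ := h
  refine ⟨ε, hε, Fin.cons 0 a, ?_⟩
  rw [e_cons_zero, pair_smul, smul_zero, smul_smul]
  congr 2; ring

lemma X0_pair_right {m : ℕ} {y : E m} (h : X0 m y) : X0 (m + 1) (pair 0 (φ • y)) := by
  obtain ⟨ε, hε, a, rfl⟩ := h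
  refine ⟨ε, hε, Fin.cons 1 a, ?_⟩
  rw [e_cons_one, pair_smul, smul_zero, smul_smul]
  congr 2; ring

lemma F0_pair_both {m : ℕ} {y z : E m} (h : X0 m y) (h' : X0 m z) : F0 (m + 1) (pair y z) := by
  obtain ⟨ε, hε, a, rfl⟩ := h
  obtain ⟨η, hη, b, rfl⟩ := h'
  right
  refine ⟨Fin.cons 0 a, Fin.cons 1 b, ?_, ε, hε, η, hη, ?_⟩
  · intro h
    have := congrFun h 0
    simp at this
  · rw [e_cons_zero, e_cons_one, pair_smul, pair_smul, pair_add, pair_smul, smul_zero, smul_zero,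
      add_zero, zero_add, smul_smul, smul_smul, Nat.add_sub_cancel, mul_comm ε, mul_comm η]

lemma F0_pair_left {m : ℕ} {y : E m} (h : F0 m y) : F0 (m + 1) (pair (φ • y) 0) := by
  rcases h with h | ⟨a, b, hab, ε, hε, η, hη, rfl⟩
  · exact Or.inl (X0_pair_left h)
  · right
    refine ⟨Fin.cons 0 a, Fin.cons 0 b, ?_, ε, hε, η, hη, ?_⟩
    · intro h; exact hab (Fin.cons_right_injective _ h)
    · have hm : m ≠ 0 := by
        rintro rfl
        exact hab (Subsingleton.elim _ _)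
      rw [e_cons_zero, e_cons_zero, pair_smul, pair_smul, pair_add, pair_smul, smul_zero,
        smul_zero, add_zero, smul_zero, smul_smul, Nat.add_sub_cancel, mul_comm φ,
        pow_sub_one_mul hm]

lemma F0_pair_right {m : ℕ} {y : E m} (h : F0 m y) : F0 (m + 1) (pair 0 (φ • y)) := by
  rcases h with h | ⟨a, b, hab, ε, hε, η, hη, rfl⟩
  · exact Or.inl (X0_pair_right h)
  · right
    refine ⟨Fin.cons 1 a, Fin.cons 1 b, ?_, ε, hε, η, hη, ?_⟩
    · intro h; exact hab (Fin.cons_right_injective _ h)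
    · have hm : m ≠ 0 := by
        rintro rfl
        exact hab (Subsingleton.elim _ _)
      rw [e_cons_one, e_cons_one, pair_smul, pair_smul, pair_add, pair_smul, smul_zero,
        smul_zero, add_zero, smul_zero, smul_smul, Nat.add_sub_cancel, mul_comm φ,
        pow_sub_one_mul hm]

/-- `φ^m e_a` lies in the lattice. -/
lemma L_e {m : ℕ} (a : Fin m → Fin 2) : L m (φ ^ m • e a) := by
  induction m with
  | zero => exact ⟨1, fun b => by
      have : b = a := Subsingleton.elim _ _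
      simp [e_apply, this]⟩
  | succ m ih =>
    rw [← Fin.cons_self_tail a]
    have : a 0 = 0 ∨ a 0 = 1 := Fin.exists_fin_two.1 ⟨a 0, rfl⟩
    have hL := ih (Fin.tail a)
    rcases this with h | h
    · rw [h, e_cons_zero, pair_smul, L_succ_iff, fstP_pair, sndP_pair, smul_zero, pow_succ',
        mul_smul]
      exact ⟨L_φ hL, -(φ ^ m • e (Fin.tail a)), L_neg hL, by rw [smul_neg, add_neg_cancel]⟩
    · rw [h, e_cons_one, pair_smul, L_succ_iff, fstP_pair, sndP_pair, smul_zero, pow_succ',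
        mul_smul]
      exact ⟨L_zero, φ ^ m • e (Fin.tail a), hL, by rw [zero_add]⟩

/-- `φ^m (e_a - e_b)` is divisible by `φ`. -/
lemma L_e_sub {m : ℕ} (a b : Fin m → Fin 2) :
    ∃ z, L m z ∧ φ ^ m • (e a - e b) = φ • z := by
  induction m with
  | zero =>
    have : a = b := Subsingleton.elim _ _
    subst this
    exact ⟨0, L_zero, by simp⟩
  | succ m ih =>
    -- the candidate is `φ^m (e_a - e_b)`
    refine ⟨φ ^ m • (e a - e b), ?_, by rw [smul_smul, pow_succ']⟩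
    have ha : a 0 = 0 ∨ a 0 = 1 := Fin.exists_fin_two.1 ⟨a 0, rfl⟩
    have hb : b 0 = 0 ∨ b 0 = 1 := Fin.exists_fin_two.1 ⟨b 0, rfl⟩
    obtain ⟨z, hz, hz'⟩ := ih (Fin.tail a) (Fin.tail b)
    have h1 := L_e (Fin.tail a)
    have h2 := L_e (Fin.tail b)
    obtain ⟨w, hw, hw'⟩ := L_two h2
    obtain ⟨w', hw1, hw1'⟩ := L_two h1
    rw [smul_sub] at hz'
    rw [← Fin.cons_self_tail a, ← Fin.cons_self_tail b, smul_sub]
    rcases ha with ha | ha <;> rcases hb with hb | hb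
    · rw [ha, hb, e_cons_zero, e_cons_zero, pair_smul, pair_smul, L_succ_iff, map_sub, map_sub]
      simp only [fstP_pair, sndP_pair, smul_zero, sub_zero]
      refine ⟨L_sub h1 h2, -z, L_neg hz, ?_⟩
      rw [hz', smul_neg, add_neg_cancel]
    · rw [ha, hb, e_cons_zero, e_cons_one, pair_smul, pair_smul, L_succ_iff, map_sub, map_sub]
      simp only [fstP_pair, sndP_pair, smul_zero, sub_zero, zero_sub]
      refine ⟨h1, -z - w, L_sub (L_neg hz) hw, ?_⟩
      rw [smul_sub, smul_neg, ← hz', ← hw', two_smul]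
      abel
    · rw [ha, hb, e_cons_zero, e_cons_one, pair_smul, pair_smul, L_succ_iff, map_sub, map_sub]
      simp only [fstP_pair, sndP_pair, smul_zero, sub_zero, zero_sub]
      refine ⟨L_neg h2, z + w, L_add hz hw, ?_⟩
      rw [smul_add, ← hz', ← hw', two_smul]
      abel
    · rw [ha, hb, e_cons_one, e_cons_one, pair_smul, pair_smul, L_succ_iff, map_sub, map_sub]
      simp only [fstP_pair, sndP_pair, smul_zero, sub_zero]
      refine ⟨L_zero, z, hz, ?_⟩
      rw [hz', zero_add]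

lemma inner_unit_smul_e {m : ℕ} (w : E m) (c : ℂ) (a : Fin m → Fin 2) :
    ⟪w, c • e a⟫ = (w a * (starRingEnd ℂ) c).re := by
  rw [PiLp.inner_apply, Finset.sum_eq_single a]
  · rw [PiLp.smul_apply, e_apply, if_pos rfl, smul_eq_mul, mul_one, Complex.inner]
    rw [← Complex.conj_re]
    simp [mul_comm]
  · intro b _ hb
    rw [PiLp.smul_apply, e_apply, if_neg hb, smul_zero, inner_zero_right]
  · simp

/-- A minimal vector congruent to `φ^m e_b` modulo `φ` is `ε φ^m e_a` for some unit `ε`. -/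
lemma class_x0 {m : ℕ} {w z : E m} {b : Fin m → Fin 2} (hw : S m w) (hz : L m z)
    (h : w = φ ^ m • e b + φ • z) : ∃ ε ∈ U, ∃ a : Fin m → Fin 2, w = (ε * φ ^ m) • e a := by
  by_contra hcon
  push Not at hcon
  -- for every coordinate and unit the difference is divisible by `φ`
  have hdiv : ∀ ε ∈ U, ∀ a : Fin m → Fin 2, ∃ y, L m y ∧ w - (ε * φ ^ m) • e a = φ • y := by
    intro ε hε a
    obtain ⟨z', hz', h'⟩ := L_e_sub b a
    obtain ⟨c, hc⟩ := U_sub hε
    refine ⟨z' + z - (c : ℂ) • (φ ^ m • e a), L_sub (L_add hz' hz) (L_smul c (L_e a)), ?_⟩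
    rw [smul_sub, smul_add, ← h', h, smul_smul φ, ← hc, smul_smul, sub_mul, one_mul, sub_smul,
      smul_sub]
    abel
  have hip : ∀ ε ∈ U, ∀ a : Fin m → Fin 2, ⟪w, (ε * φ ^ m) • e a⟫ ≤ 0 := by
    intro ε hε a
    obtain ⟨y, hy, hy'⟩ := hdiv ε hε a
    have hy0 : y ≠ 0 := by
      rintro rfl
      rw [smul_zero, sub_eq_zero] at hy'
      exact hcon ε hε a hy'
    have h1 := min_norm hy hy0
    have h2 : ‖w - (ε * φ ^ m) • e a‖ ^ 2 = 2 * ‖y‖ ^ 2 := by rw [hy', norm_φ_smul]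
    rw [norm_sub_sq_real, hw.2, norm_smul, norm_e, norm_mul, U_norm hε, norm_pow, one_mul,
      mul_one, ← pow_mul, mul_comm m 2, pow_mul, normSq_φ] at h2
    linarith
  apply hw.ne_zero
  ext a
  have h1 := hip 1 U_one a
  have h2 := hip (-1) (U_neg U_one) a
  have h3 := hip Complex.I (by simp [U]) a
  have h4 := hip (-Complex.I) (by simp [U]) a
  rw [inner_unit_smul_e] at h1 h2 h3 h4
  simp only [map_mul, map_neg, one_mul, Complex.conj_I, neg_mul, neg_neg, mul_neg,
    Complex.neg_re] at h1 h2 h3 h4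
  have e1 : (w a * (starRingEnd ℂ) (φ ^ m)).re = 0 := by linarith
  have e2 : (w a * (starRingEnd ℂ) (φ ^ m)).im = 0 := by
    have h5 : (w a * (Complex.I * (starRingEnd ℂ) (φ ^ m))).re =
        -(w a * (starRingEnd ℂ) (φ ^ m)).im := by
      have : w a * (Complex.I * (starRingEnd ℂ) (φ ^ m)) =
        Complex.I * (w a * (starRingEnd ℂ) (φ ^ m)) := by ring
      rw [this, Complex.I_mul_re]
    rw [h5] at h3 h4
    linarith
  have e3 : w a * (starRingEnd ℂ) (φ ^ m) = 0 := Complex.ext e1 e2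
  have e4 : (starRingEnd ℂ) (φ ^ m) ≠ 0 := by
    rw [Ne, map_eq_zero]
    exact pow_ne_zero _ φ_ne_zero
  simpa using (mul_eq_zero.1 e3).resolve_right e4

/-! ### Isometries -/

/-- `(u, w) ↦ (g u, h w)` -/
noncomputable def prodG {m : ℕ} (g h : E m ≃ₗᵢ[ℂ] E m) : E (m + 1) ≃ₗᵢ[ℂ] E (m + 1) where
  toFun v := pair (g (fstP v)) (h (sndP v))
  invFun v := pair (g.symm (fstP v)) (h.symm (sndP v))
  map_add' u v := by rw [map_add, map_add, map_add, map_add, pair_add]
  map_smul' c v := by rw [map_smul, map_smul, map_smul, map_smul, RingHom.id_apply, pair_smul]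
  left_inv v := by simp
  right_inv v := by simp
  norm_map' v := by
    have h : ‖pair (g (fstP v)) (h (sndP v))‖ ^ 2 = ‖v‖ ^ 2 := by
      rw [norm_sq_halves, norm_sq_halves v, fstP_pair, sndP_pair, g.norm_map, h.norm_map]
    exact (sq_eq_sq₀ (norm_nonneg _) (norm_nonneg _)).1 h

lemma prodG_apply {m : ℕ} (g h : E m ≃ₗᵢ[ℂ] E m) (v : E (m + 1)) :
    prodG g h v = pair (g (fstP v)) (h (sndP v)) := rfl

lemma prodG_pair {m : ℕ} (g h : E m ≃ₗᵢ[ℂ] E m) (u w : E m) :
    prodG g h (pair u w) = pair (g u) (h w) := by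
  rw [prodG_apply, fstP_pair, sndP_pair]

lemma prodG_mul {m : ℕ} (g h g' h' : E m ≃ₗᵢ[ℂ] E m) :
    prodG (g * g') (h * h') = prodG g h * prodG g' h' := by
  ext1 v
  rw [LinearIsometryEquiv.coe_mul, Function.comp_apply, prodG_apply, prodG_apply g' h', prodG_pair]
  rfl

lemma prodG_inv {m : ℕ} (g h : E m ≃ₗᵢ[ℂ] E m) : (prodG g h)⁻¹ = prodG g⁻¹ h⁻¹ := rfl

/-- `(u, w) ↦ (w, u)` -/
noncomputable def swapG {m : ℕ} : E (m + 1) ≃ₗᵢ[ℂ] E (m + 1) where
  toFun v := pair (sndP v) (fstP v)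
  invFun v := pair (sndP v) (fstP v)
  map_add' u v := by rw [map_add, map_add, pair_add]
  map_smul' c v := by rw [map_smul, map_smul, RingHom.id_apply, pair_smul]
  left_inv v := by simp
  right_inv v := by simp
  norm_map' v := by
    have h : ‖pair (sndP v) (fstP v)‖ ^ 2 = ‖v‖ ^ 2 := by
      rw [norm_sq_halves, norm_sq_halves v, fstP_pair, sndP_pair, add_comm]
    exact (sq_eq_sq₀ (norm_nonneg _) (norm_nonneg _)).1 h

lemma swapG_pair {m : ℕ} (u w : E m) : swapG (pair u w) = pair w u := by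
  change pair (sndP (pair u w)) (fstP (pair u w)) = _
  rw [fstP_pair, sndP_pair]

lemma swapG_inv {m : ℕ} : (swapG : E (m + 1) ≃ₗᵢ[ℂ] E (m + 1))⁻¹ = swapG := rfl

/-- multiplication by a unit complex number -/
noncomputable def unitG {m : ℕ} (ε : ℂ) (hε : ‖ε‖ = 1) : E m ≃ₗᵢ[ℂ] E m where
  toFun v := ε • v
  invFun v := ε⁻¹ • v
  map_add' u v := smul_add _ _ _
  map_smul' c v := by rw [RingHom.id_apply, smul_comm]
  left_inv v := by
    have : ε ≠ 0 := by intro h; rw [h, norm_zero] at hε; norm_num at hε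
    simp [smul_smul, this]
  right_inv v := by
    have : ε ≠ 0 := by intro h; rw [h, norm_zero] at hε; norm_num at hε
    simp [smul_smul, this]
  norm_map' v := by
    change ‖ε • v‖ = ‖v‖
    rw [norm_smul, hε, one_mul]

lemma unitG_apply {m : ℕ} (ε : ℂ) (hε : ‖ε‖ = 1) (v : E m) : unitG ε hε v = ε • v := rfl
lemma unitG_inv_apply {m : ℕ} (ε : ℂ) (hε : ‖ε‖ = 1) (v : E m) :
    (unitG ε hε)⁻¹ v = ε⁻¹ • v := rfl

/-- the Hadamard-type map `(u, w) ↦ φ⁻¹ (u + w, u - w)` -/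
noncomputable def hadG {m : ℕ} : E (m + 1) ≃ₗᵢ[ℂ] E (m + 1) where
  toFun v := φ⁻¹ • pair (fstP v + sndP v) (fstP v - sndP v)
  invFun v := (φ / 2) • pair (fstP v + sndP v) (fstP v - sndP v)
  map_add' u v := by
    rw [map_add, map_add, ← smul_add, pair_add]
    congr 2 <;> abel
  map_smul' c v := by
    rw [map_smul, map_smul, RingHom.id_apply, ← smul_add, ← smul_sub, ← pair_smul, smul_comm]
  left_inv v := by
    apply ext_halves
    · simp only [map_smul, fstP_pair, sndP_pair]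
      rw [← smul_add, smul_smul]
      have : φ / 2 * φ⁻¹ = 1 / 2 := by field_simp [φ_ne_zero]
      rw [this, add_add_sub_cancel, ← two_smul ℂ (fstP v), smul_smul]
      norm_num
    · simp only [map_smul, fstP_pair, sndP_pair]
      rw [← smul_sub, smul_smul]
      have : φ / 2 * φ⁻¹ = 1 / 2 := by field_simp [φ_ne_zero]
      rw [this, add_sub_sub_cancel, ← two_smul ℂ (sndP v), smul_smul]
      norm_num
  right_inv v := by
    apply ext_halves
    · simp only [map_smul, fstP_pair, sndP_pair]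
      rw [← smul_add, smul_smul]
      have : φ⁻¹ * (φ / 2) = 1 / 2 := by field_simp [φ_ne_zero]
      rw [this, add_add_sub_cancel, ← two_smul ℂ (fstP v), smul_smul]
      norm_num
    · simp only [map_smul, fstP_pair, sndP_pair]
      rw [← smul_sub, smul_smul]
      have : φ⁻¹ * (φ / 2) = 1 / 2 := by field_simp [φ_ne_zero]
      rw [this, add_sub_sub_cancel, ← two_smul ℂ (sndP v), smul_smul]
      norm_num
  norm_map' v := by
    have h : ‖φ⁻¹ • pair (fstP v + sndP v) (fstP v - sndP v)‖ ^ 2 = ‖v‖ ^ 2 := by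
      rw [norm_smul, mul_pow, norm_inv, inv_pow, normSq_φ, norm_sq_halves, norm_sq_halves v,
        fstP_pair, sndP_pair]
      have := parallelogram_law_with_norm ℂ (fstP v) (sndP v)
      rw [this]
      ring
    exact (sq_eq_sq₀ (norm_nonneg _) (norm_nonneg _)).1 h

lemma hadG_apply {m : ℕ} (v : E (m + 1)) :
    hadG v = φ⁻¹ • pair (fstP v + sndP v) (fstP v - sndP v) := rfl
lemma hadG_inv_apply {m : ℕ} (v : E (m + 1)) :
    hadG⁻¹ v = (φ / 2) • pair (fstP v + sndP v) (fstP v - sndP v) := rfl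

/-- translation of the coordinates -/
noncomputable def transG {m : ℕ} (j : Fin m → Fin 2) : E m ≃ₗᵢ[ℂ] E m :=
  LinearIsometryEquiv.piLpCongrLeft 2 ℂ ℂ (Equiv.addRight j)

lemma transG_apply {m : ℕ} (j : Fin m → Fin 2) (v : E m) (a : Fin m → Fin 2) :
    transG j v a = v (a - j) := by
  rw [transG, LinearIsometryEquiv.piLpCongrLeft_apply]
  simp [Equiv.piCongrLeft', sub_eq_add_neg]

lemma transG_e {m : ℕ} (j a : Fin m → Fin 2) : transG j (e a) = e (a + j) := by
  ext b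
  rw [transG_apply, e_apply, e_apply]
  simp only [sub_eq_iff_eq_add]

lemma transG_inv {m : ℕ} (j : Fin m → Fin 2) (v : E m) : (transG j)⁻¹ v = transG j v := by
  ext a
  rw [transG_apply]
  have h1 : ((transG j)⁻¹ v) a = v (a + j) := by
    rw [transG, LinearIsometryEquiv.coe_inv, LinearIsometryEquiv.piLpCongrLeft_symm,
      LinearIsometryEquiv.piLpCongrLeft_apply]
    simp [Equiv.piCongrLeft']
  have h2 : j + j = 0 := by
    ext i
    have : ∀ x : Fin 2, x + x = 0 := by decide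
    rw [Pi.add_apply, this]; rfl
  have h3 : a + j = a - j := by
    apply eq_sub_of_add_eq
    rw [add_assoc, h2, add_zero]
  rw [h1, h3]

lemma transG_pair_zero {m : ℕ} (j : Fin m → Fin 2) (u w : E m) :
    transG (Fin.cons 0 j) (pair u w) = pair (transG j u) (transG j w) := by
  apply ext_halves
  · ext a
    rw [fstP_apply, transG_apply, fstP_pair, transG_apply, pair_apply]
    simp [Fin.tail_def]
    rfl
  · ext a
    rw [sndP_apply, transG_apply, sndP_pair, transG_apply, pair_apply]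
    simp [Fin.tail_def]
    rfl

lemma transG_pair_one {m : ℕ} (j : Fin m → Fin 2) (u w : E m) :
    transG (Fin.cons 1 j) (pair u w) = pair (transG j w) (transG j u) := by
  apply ext_halves
  · ext a
    rw [fstP_apply, transG_apply, fstP_pair, transG_apply, pair_apply]
    simp [Fin.tail_def]
    rfl
  · ext a
    rw [sndP_apply, transG_apply, sndP_pair, transG_apply, pair_apply]
    simp [Fin.tail_def]
    rfl

/-- Translations are trivial modulo `φ`. -/
lemma trans_mod {m : ℕ} (j : Fin m → Fin 2) {y : E m} (hy : L m y) :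
    ∃ z, L m z ∧ transG j y = y + φ • z := by
  induction m with
  | zero =>
    refine ⟨0, L_zero, ?_⟩
    have : j = 0 := Subsingleton.elim _ _
    ext a
    rw [transG_apply, this, sub_zero, smul_zero, add_zero]
  | succ m ih =>
    obtain ⟨h1, w, hw, h2⟩ := id hy
    obtain ⟨a, ha, ha'⟩ := ih (Fin.tail j) h1
    obtain ⟨b, hb, hb'⟩ := ih (Fin.tail j) (L_snd hy)
    obtain ⟨c, hc, hc'⟩ := ih (Fin.tail j) hw
    have hbc : b = a + φ • c := by
      apply φ_cancel
      have e1 : transG (Fin.tail j) (sndP y) = transG (Fin.tail j) (fstP y) +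
          φ • transG (Fin.tail j) w := by rw [h2, map_add, map_smul]
      rw [ha', hb', hc', h2] at e1
      have e2 : φ • b = (fstP y + φ • w + φ • b) - (fstP y + φ • w) := by abel
      rw [e2, e1, smul_add, smul_add]
      abel
    rw [← Fin.cons_self_tail j, ← pair_halves y]
    have hj : j 0 = 0 ∨ j 0 = 1 := Fin.exists_fin_two.1 ⟨j 0, rfl⟩
    rcases hj with hj | hj
    · rw [hj, transG_pair_zero, ha', hb']
      refine ⟨pair a b, ?_, ?_⟩
      · rw [L_succ_iff, fstP_pair, sndP_pair]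
        exact ⟨ha, c, hc, hbc⟩
      · rw [pair_smul, pair_add]
    · rw [hj, transG_pair_one, ha', hb']
      obtain ⟨d, hd, hd'⟩ := L_two hw
      refine ⟨pair (w + b) (a - w), ?_, ?_⟩
      · rw [L_succ_iff, fstP_pair, sndP_pair]
        refine ⟨L_add hw hb, -c - d, L_sub (L_neg hc) hd, ?_⟩
        rw [smul_sub, ← hd', hbc, two_smul, smul_neg]
        abel
      · rw [pair_smul, pair_add, h2, smul_add, smul_sub]
        congr 1 <;> abel

/-- The generating symmetries. -/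
def H (m : ℕ) : Set (E m ≃ₗᵢ[ℂ] E m) :=
  {g | (∀ v, L m v → L m (g v)) ∧ (∀ v, L m v → L m (g⁻¹ v)) ∧ ∀ x, X0 m x → F0 m (g x)}

lemma unitG_mem {m : ℕ} {ε : ℂ} (hε : ε ∈ U) : unitG ε (U_norm hε) ∈ H m := by
  refine ⟨fun v hv => L_unit hε hv, fun v hv => ?_, ?_⟩
  · rw [unitG_inv_apply]
    exact L_unit (U_inv hε) hv
  · rintro x ⟨η, hη, a, rfl⟩
    left
    exact ⟨ε * η, U_mul hε hη, a, by rw [unitG_apply, smul_smul, mul_assoc]⟩

lemma prodG_mem {m : ℕ} {h : E m ≃ₗᵢ[ℂ] E m} (hh : h ∈ H m) : prodG h h ∈ H (m + 1) := by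
  obtain ⟨h1, h2, h3⟩ := hh
  have key : ∀ g : E m ≃ₗᵢ[ℂ] E m, (∀ v, L m v → L m (g v)) →
      ∀ v, L (m + 1) v → L (m + 1) (prodG g g v) := by
    intro g hg v hv
    obtain ⟨hx, z, hz, hy⟩ := hv
    rw [prodG_apply, L_succ_iff, fstP_pair, sndP_pair]
    exact ⟨hg _ hx, g z, hg _ hz, by rw [hy, map_add, map_smul]⟩
  refine ⟨key h h1, ?_, ?_⟩
  · rw [prodG_inv]
    exact key h⁻¹ h2
  · intro x hx
    rcases X0_succ hx with ⟨y, hy, rfl⟩ | ⟨y, hy, rfl⟩
    · rw [prodG_pair, map_zero, map_smul]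
      exact F0_pair_left (h3 y hy)
    · rw [prodG_pair, map_zero, map_smul]
      exact F0_pair_right (h3 y hy)

lemma swapG_mem {m : ℕ} : (swapG : E (m + 1) ≃ₗᵢ[ℂ] E (m + 1)) ∈ H (m + 1) := by
  have key : ∀ v, L (m + 1) v → L (m + 1) (swapG v) := by
    intro v hv
    obtain ⟨hx, z, hz, hy⟩ := id hv
    rw [← pair_halves v, swapG_pair, L_succ_iff, fstP_pair, sndP_pair]
    exact ⟨L_snd hv, -z, L_neg hz, by rw [hy, smul_neg, add_neg_cancel_right]⟩
  refine ⟨key, key, ?_⟩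
  intro x hx
  rcases X0_succ hx with ⟨y, hy, rfl⟩ | ⟨y, hy, rfl⟩
  · rw [swapG_pair]
    exact Or.inl (X0_pair_right hy)
  · rw [swapG_pair]
    exact Or.inl (X0_pair_left hy)

lemma L_unit_trans {m : ℕ} {ε : ℂ} (hε : ε ∈ U) (j : Fin m → Fin 2) {y : E m} (hy : L m y) :
    ∃ z, L m z ∧ ε • transG j y = y + φ • z := by
  obtain ⟨z, hz, h⟩ := trans_mod j hy
  obtain ⟨c, hc⟩ := U_sub hε
  refine ⟨(c : ℂ) • y + ε • z, L_add (L_smul c hy) (L_unit hε hz), ?_⟩
  rw [h, smul_add, smul_add, smul_smul φ, ← hc, sub_smul, one_smul, smul_comm ε φ]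
  abel

lemma shearG_mem {m : ℕ} {ε : ℂ} (hε : ε ∈ U) (j : Fin m → Fin 2) :
    prodG 1 (unitG ε (U_norm hε) * transG j) ∈ H (m + 1) := by
  have key : ∀ η ∈ U, ∀ g : E m ≃ₗᵢ[ℂ] E m, (∀ y, g y = η • transG j y) →
      ∀ v, L (m + 1) v → L (m + 1) (prodG 1 g v) := by
    intro η hη g hg v hv
    obtain ⟨hx, z, hz, hy⟩ := id hv
    obtain ⟨w, hw, hw'⟩ := L_unit_trans hη j (L_snd hv)
    rw [prodG_apply, L_succ_iff, fstP_pair, sndP_pair, hg]
    refine ⟨hx, z + w, L_add hz hw, ?_⟩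
    rw [hw', hy, smul_add, add_assoc]
    rfl
  refine ⟨key ε hε _ fun y => rfl, ?_, ?_⟩
  · rw [prodG_inv, inv_one]
    refine key ε⁻¹ (U_inv hε) _ fun y => ?_
    rw [mul_inv_rev]
    change (transG j)⁻¹ ((unitG ε (U_norm hε))⁻¹ y) = _
    rw [transG_inv, unitG_inv_apply, map_smul]
  · intro x hx
    rcases X0_succ hx with ⟨y, hy, rfl⟩ | ⟨y, hy, rfl⟩
    · rw [prodG_pair, map_zero]
      exact Or.inl (X0_pair_left hy)
    · rw [prodG_pair, map_zero]
      left
      obtain ⟨η, hη, a, rfl⟩ := hy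
      have : (unitG ε (U_norm hε) * transG j : E m ≃ₗᵢ[ℂ] E m) (φ • (η * φ ^ m) • e a) =
          φ • ((ε * η) * φ ^ m) • e (a + j) := by
        change ε • transG j (φ • (η * φ ^ m) • e a) = _
        rw [map_smul, map_smul, transG_e, smul_smul, smul_smul, smul_smul]
        congr 1; ring
      rw [this]
      exact X0_pair_right ⟨ε * η, U_mul hε hη, a + j, rfl⟩

lemma hadG_mem {m : ℕ} : (hadG : E (m + 1) ≃ₗᵢ[ℂ] E (m + 1)) ∈ H (m + 1) := by
  have key : ∀ v, L (m + 1) v → L (m + 1) (hadG v) := by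
    intro v hv
    obtain ⟨hx, z, hz, hy⟩ := id hv
    obtain ⟨w, hw, hw'⟩ := L_two hx
    have e1 : φ⁻¹ • (fstP v + sndP v) = w + z := by
      rw [hy, ← add_assoc, ← two_smul ℂ, hw', ← smul_add, smul_smul, inv_mul_cancel₀ φ_ne_zero,
        one_smul]
    have e2 : φ⁻¹ • (fstP v - sndP v) = -z := by
      rw [hy, sub_add_cancel_left, smul_neg, smul_smul, inv_mul_cancel₀ φ_ne_zero, one_smul]
    rw [hadG_apply, pair_smul, e1, e2, L_succ_iff, fstP_pair, sndP_pair]
    -- the difference is `-z - (w + z) = -(w + 2 z)`, and `φ w = 2 x`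
    have hwφ : w = φ • ((⟨0, -1⟩ : GaussianInt) : ℂ) • fstP v := by
      apply φ_cancel
      rw [← hw', smul_smul, smul_smul]
      congr 1
      simp only [GaussianInt.toComplex_def, φ]
      apply Complex.ext
      · simp; norm_num
      · simp
    obtain ⟨d, hd, hd'⟩ := L_two hz
    refine ⟨L_add hw hz, -(((⟨0, -1⟩ : GaussianInt) : ℂ) • fstP v) - d,
      L_sub (L_neg (L_smul _ hx)) hd, ?_⟩
    rw [smul_sub, smul_neg, ← hwφ, ← hd', two_smul]
    abel
  have hI : ∀ v : E (m + 1), hadG⁻¹ v = Complex.I • hadG v := by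
    intro v
    rw [hadG_inv_apply, hadG_apply, smul_smul]
    congr 1
    have := φ_ne_zero
    rw [div_eq_iff two_ne_zero]
    field_simp
    simp only [φ]
    apply Complex.ext <;> simp [sq]
    norm_num
  refine ⟨key, fun v hv => by rw [hI]; exact L_I (key v hv), ?_⟩
  intro x hx
  rcases X0_succ hx with ⟨y, hy, rfl⟩ | ⟨y, hy, rfl⟩
  · have : hadG (pair (φ • y) 0) = pair y y := by
      rw [hadG_apply, fstP_pair, sndP_pair, add_zero, sub_zero, pair_smul, smul_smul,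
        inv_mul_cancel₀ φ_ne_zero, one_smul]
    rw [this]
    exact F0_pair_both hy hy
  · have : hadG (pair 0 (φ • y)) = pair y (-y) := by
      rw [hadG_apply, fstP_pair, sndP_pair, zero_add, zero_sub, pair_smul, smul_neg, smul_smul,
        inv_mul_cancel₀ φ_ne_zero, one_smul]
    rw [this]
    exact F0_pair_both hy (X0_neg hy)

/-- The group generated. -/
noncomputable def G (m : ℕ) : Submonoid (E m ≃ₗᵢ[ℂ] E m) := Submonoid.closure (H m)

lemma G_L {m : ℕ} {g : E m ≃ₗᵢ[ℂ] E m} (hg : g ∈ G m) :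
    (∀ v, L m v → L m (g v)) ∧ (∀ v, L m v → L m (g⁻¹ v)) := by
  induction hg using Submonoid.closure_induction with
  | mem x hx => exact ⟨hx.1, hx.2.1⟩
  | one => exact ⟨fun v hv => hv, fun v hv => by rw [inv_one]; exact hv⟩
  | mul x y hx hy ihx ihy =>
    refine ⟨fun v hv => ihx.1 _ (ihy.1 _ hv), fun v hv => ?_⟩
    rw [mul_inv_rev]
    exact ihy.2 _ (ihx.2 _ hv)

lemma prodG_G {m : ℕ} {g : E m ≃ₗᵢ[ℂ] E m} (hg : g ∈ G m) : prodG g g ∈ G (m + 1) := by
  induction hg using Submonoid.closure_induction with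
  | mem x hx => exact Submonoid.subset_closure (prodG_mem hx)
  | one =>
    have : prodG (1 : E m ≃ₗᵢ[ℂ] E m) 1 = 1 := by
      ext1 v
      rw [prodG_apply]
      exact pair_halves v
    rw [this]
    exact one_mem _
  | mul x y hx hy ihx ihy =>
    rw [prodG_mul]
    exact mul_mem ihx ihy

/-- the base point -/
noncomputable def x0 (m : ℕ) : E m := φ ^ m • e 0

lemma x0_X0 (m : ℕ) : X0 m (x0 m) := ⟨1, U_one, 0, by rw [one_mul]; rfl⟩

lemma x0_succ (m : ℕ) : x0 (m + 1) = pair (φ • x0 m) 0 := by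
  have : (0 : Fin (m + 1) → Fin 2) = Fin.cons 0 0 := by
    ext i
    refine Fin.cases ?_ (fun j => ?_) i <;> simp
  rw [x0, this, e_cons_zero, pair_smul, smul_zero, x0, smul_smul, pow_succ']

/-- In rank one the minimal vectors are the units. -/
lemma S_zero {r : E 0} (hr : S 0 r) : ∃ ε ∈ U, r = ε • e 0 := by
  obtain ⟨⟨c, hc⟩, hn⟩ := hr
  have h1 : c.norm = 1 := by
    rw [EuclideanSpace.norm_sq_eq] at hn
    simp only [Finset.univ_unique, Finset.sum_singleton, pow_zero] at hn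
    rw [hc, ← Complex.normSq_eq_norm_sq, ← GaussianInt.intCast_real_norm] at hn
    exact_mod_cast hn
  have hU : (c : ℂ) ∈ U := by
    have h2 : c.re * c.re + c.im * c.im = 1 := by
      rw [Zsqrtd.norm_def] at h1; linarith
    have h3 : c.re ^ 2 ≤ 1 := by nlinarith [mul_self_nonneg c.im]
    have h4 : c.im ^ 2 ≤ 1 := by nlinarith [mul_self_nonneg c.re]
    have h5 : -1 ≤ c.re ∧ c.re ≤ 1 := abs_le.1 ((sq_le_one_iff_abs_le_one _).1 h3)
    have h6 : -1 ≤ c.im ∧ c.im ≤ 1 := abs_le.1 ((sq_le_one_iff_abs_le_one _).1 h4)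
    obtain ⟨x, y⟩ := c
    simp only at h2 h5 h6
    obtain ⟨h5a, h5b⟩ := h5
    obtain ⟨h6a, h6b⟩ := h6
    rw [GaussianInt.toComplex_def]
    simp only [U, Set.mem_insert_iff, Set.mem_singleton_iff]
    interval_cases x <;> interval_cases y <;> simp_all
  refine ⟨c, hU, ?_⟩
  ext a
  rw [hc, PiLp.smul_apply, e_apply]
  have : a = 0 := Subsingleton.elim _ _
  simp [this]

/-- **Transitivity** on the minimal vectors. -/
theorem transitive (m : ℕ) (r : E m) (hr : S m r) : ∃ g ∈ G m, r = g (x0 m) := by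
  induction m with
  | zero =>
    obtain ⟨ε, hε, rfl⟩ := S_zero hr
    refine ⟨unitG _ (U_norm hε), Submonoid.subset_closure (unitG_mem hε), ?_⟩
    rw [unitG_apply, x0, pow_zero, one_smul]
  | succ m ih =>
    have hdiag : ∀ z, S m z → ∃ g ∈ G (m + 1), pair (φ • z) 0 = g (x0 (m + 1)) := by
      intro z hz
      obtain ⟨g, hg, rfl⟩ := ih z hz
      refine ⟨prodG g g, prodG_G hg, ?_⟩
      rw [x0_succ, prodG_pair, map_zero, map_smul]
    rcases S_succ hr with ⟨z, hz, rfl⟩ | ⟨z, hz, rfl⟩ | ⟨hu, hw, z, hz, h⟩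
    · exact hdiag z hz
    · obtain ⟨g, hg, h⟩ := hdiag z hz
      refine ⟨swapG * g, mul_mem (Submonoid.subset_closure swapG_mem) hg, ?_⟩
      rw [LinearIsometryEquiv.coe_mul, Function.comp_apply, ← h, swapG_pair]
    · obtain ⟨g, hg, hgu⟩ := ih (fstP r) hu
      have hgL := G_L hg
      -- pull back the second half
      have h1 : g⁻¹ (sndP r) = φ ^ m • e 0 + φ • (g⁻¹ z) := by
        rw [h, map_add, map_smul, hgu]
        congr 1
        exact g.symm_apply_apply _
      have h2 : S m (g⁻¹ (sndP r)) := by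
        refine ⟨hgL.2 _ hw.1, ?_⟩
        rw [LinearIsometryEquiv.norm_map]
        exact hw.2
      obtain ⟨ε, hε, a, ha⟩ := class_x0 h2 (hgL.2 _ hz) h1
      refine ⟨prodG g g * (prodG 1 (unitG ε (U_norm hε) * transG a) * hadG),
        mul_mem (prodG_G hg) (mul_mem (Submonoid.subset_closure (shearG_mem hε a))
          (Submonoid.subset_closure hadG_mem)), ?_⟩
      have h3 : hadG (x0 (m + 1)) = pair (x0 m) (x0 m) := by
        rw [x0_succ, hadG_apply, fstP_pair, sndP_pair, add_zero, sub_zero, pair_smul, smul_smul,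
          inv_mul_cancel₀ φ_ne_zero, one_smul]
      have h4 : (unitG ε (U_norm hε) * transG a : E m ≃ₗᵢ[ℂ] E m) (x0 m) = g⁻¹ (sndP r) := by
        rw [ha]
        change ε • transG a (φ ^ m • e 0) = _
        rw [map_smul, transG_e, zero_add, smul_smul]
      rw [LinearIsometryEquiv.coe_mul, Function.comp_apply, LinearIsometryEquiv.coe_mul,
        Function.comp_apply, h3, prodG_pair, h4, prodG_pair]
      rw [← pair_halves r]
      simp only [sndP_pair]
      congr 1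
      exact (g.apply_symm_apply _).symm

end Pool.Agent.H76.Jam
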